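import Pool.Agent.Lib.MP_bba460_co.Weights

/-! Counting the sets `T` such that `T ∪ {0}` is a nontrivial sumset. -/

namespace Pool.Agent.Lib.MP_bba460_co
open Finset Pointwise

/-- `T ∪ {0}` is a sum of two sets containing `0` and different from `{0}`. -/
def Red (T : Finset ℕ) : Prop :=
  ∃ B C : Finset ℕ, 0 ∈ B ∧ 0 ∈ C ∧ B ≠ {0} ∧ C ≠ {0} ∧ insert 0 T = B + C

theorem exists_ne_zero {C : Finset ℕ} (h0 : 0 ∈ C) (h : C ≠ {0}) : ∃ c ∈ C, c ≠ 0 := by
  by_contra hc
  push Not at hc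
  exact h (eq_singleton_iff_unique_mem.2 ⟨h0, hc⟩)

theorem add_mem_of {T B C : Finset ℕ} (h : insert 0 T = B + C) {b c : ℕ} (hb : b ∈ B)
    (hc : c ∈ C) (hne : b + c ≠ 0) : b + c ∈ T := by
  have h1 : b + c ∈ insert 0 T := h ▸ add_mem_add hb hc
  exact (mem_insert.1 h1).resolve_left hne

theorem left_sub {T B C : Finset ℕ} (h : insert 0 T = B + C) (hC : 0 ∈ C) : B.erase 0 ⊆ T := by
  intro b hb
  have := add_mem_of h (mem_of_mem_erase hb) hC (by simpa using ne_of_mem_erase hb)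
  simpa using this

theorem transfer {n t : ℕ} (ht0 : 0 < t) (ht : t < n) {w : ℝ} (hw : w * ((n : ℝ) - t) = t)
    {x ρ : ℝ} (hρ : 0 ≤ ρ) (h : x * w ^ t ≤ (1 + w) ^ n * ρ) :
    x ≤ ((n : ℝ) + 1) * (n.choose t : ℝ) * ρ := by
  have hnt : (0 : ℝ) < (n : ℝ) - t := by
    have : (t : ℝ) < n := by exact_mod_cast ht
    linarith
  have ht' : (0 : ℝ) < t := by exact_mod_cast ht0
  have hw0 : 0 < w := by
    by_contra hc
    push Not at hc
    nlinarith
  have h1 := mul_le_mul_of_nonneg_right (mode_bound n t ht w hw) hρ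
  have h2 : x * w ^ t ≤ (((n : ℝ) + 1) * (n.choose t : ℝ) * ρ) * w ^ t := by
    calc x * w ^ t ≤ _ := h.trans h1
      _ = _ := by ring
  exact le_of_mul_le_mul_right h2 (by positivity)

theorem union_weight {ι : Type} (G : Finset ℕ) (t : ℕ) {w : ℝ} (hw : 0 ≤ w)
    (𝓕 : Finset (Finset ℕ)) (P : Finset ι) (Φ : ι → Finset ℕ → Prop)
    [∀ p, DecidablePred (Φ p)] (M : ℝ)
    (h1 : ∀ T ∈ 𝓕, T ⊆ G ∧ T.card = t ∧ ∃ p ∈ P, Φ p T)
    (h2 : ∀ p ∈ P, ∑ T ∈ G.powerset.filter (Φ p), w ^ T.card ≤ M) :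
    (𝓕.card : ℝ) * w ^ t ≤ P.card * M := by
  calc (𝓕.card : ℝ) * w ^ t = ∑ _T ∈ 𝓕, w ^ t := by rw [sum_const, nsmul_eq_mul]
    _ ≤ ∑ T ∈ 𝓕, ∑ p ∈ P, if Φ p T then w ^ T.card else 0 := by
        refine sum_le_sum fun T hT => ?_
        obtain ⟨-, hc, p, hp, hΦ⟩ := h1 T hT
        refine le_trans ?_ (single_le_sum (f := fun p => if Φ p T then w ^ T.card else 0)
          (fun p _ => by split_ifs <;> positivity) hp)
        simp only [if_pos hΦ, hc, le_refl]
    _ ≤ ∑ T ∈ G.powerset, ∑ p ∈ P, if Φ p T then w ^ T.card else 0 :=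
        sum_le_sum_of_subset_of_nonneg (fun T hT => mem_powerset.2 (h1 T hT).1)
          fun T _ _ => sum_nonneg fun p _ => by split_ifs <;> positivity
    _ = ∑ p ∈ P, ∑ T ∈ G.powerset.filter (Φ p), w ^ T.card := by
        rw [sum_comm]
        exact sum_congr rfl fun p _ => (sum_filter _ _).symm
    _ ≤ P.card * M := by
        rw [← nsmul_eq_mul]
        exact sum_le_card_nsmul _ _ _ h2

/-- Both summands are small. -/
theorem case_a (G : Finset ℕ) (hG : 0 ∉ G) (k : ℕ) {y : ℝ} (hy : 0 < y) (hy1 : y ≤ 1)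
    (𝓕 : Finset (Finset ℕ))
    (h : ∀ T ∈ 𝓕, T ⊆ G ∧ ∃ B C : Finset ℕ, 0 ∈ B ∧ 0 ∈ C ∧ insert 0 T = B + C ∧
      (B.erase 0).card ≤ k ∧ (C.erase 0).card ≤ k) :
    (𝓕.card : ℝ) * y ^ (2 * k) ≤ Real.exp (2 * (y * G.card)) := by
  have hsub : 𝓕 ⊆ ((G.powerset.filter fun B => B.card ≤ k) ×ˢ
      (G.powerset.filter fun B => B.card ≤ k)).image
        fun p => (insert 0 p.1 + insert 0 p.2).erase 0 := by
    intro T hT
    obtain ⟨hTG, B, C, hB, hC, e, kB, kC⟩ := h T hT
    refine mem_image.2 ⟨(B.erase 0, C.erase 0), mem_product.2 ⟨mem_filter.2 ⟨mem_powerset.2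
      ((left_sub e hC).trans hTG), kB⟩, mem_filter.2 ⟨mem_powerset.2
      ((left_sub (e.trans (add_comm B C)) hB).trans hTG), kC⟩⟩, ?_⟩
    simp only [insert_erase hB, insert_erase hC, ← e]
    exact erase_insert fun h0 => hG (hTG h0)
  have h1 := (card_le_card hsub).trans card_image_le
  rw [card_product] at h1
  have h2 := card_small_le G k y hy hy1
  have h3 : (𝓕.card : ℝ) ≤ ((G.powerset.filter fun B => B.card ≤ k).card : ℝ) *
      (G.powerset.filter fun B => B.card ≤ k).card := by exact_mod_cast h1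
  calc (𝓕.card : ℝ) * y ^ (2 * k)
      ≤ (((G.powerset.filter fun B => B.card ≤ k).card : ℝ) *
          (G.powerset.filter fun B => B.card ≤ k).card) * y ^ (2 * k) :=
        mul_le_mul_of_nonneg_right h3 (by positivity)
    _ = (((G.powerset.filter fun B => B.card ≤ k).card : ℝ) * y ^ k) *
          (((G.powerset.filter fun B => B.card ≤ k).card : ℝ) * y ^ k) := by ring
    _ ≤ Real.exp (y * G.card) * Real.exp (y * G.card) :=
        mul_le_mul h2 h2 (by positivity) (by positivity)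
    _ = _ := by rw [← Real.exp_add, two_mul]

/-- One summand is large and the other has at least `τ` elements. -/
theorem case_b (G : Finset ℕ) (t τ j : ℕ) (hτ : 0 < τ) {w y : ℝ} (hw : 0 ≤ w) (hy : 0 < y)
    (hy1 : y ≤ 1) (𝓕 : Finset (Finset ℕ))
    (h : ∀ T ∈ 𝓕, T ⊆ G ∧ T.card = t ∧ ∃ B C : Finset ℕ, 0 ∈ B ∧ 0 ∈ C ∧ insert 0 T = B + C ∧
      τ ≤ C.card ∧ τ ^ 2 * (j - 1) < (B.erase 0).card) :
    (𝓕.card : ℝ) * w ^ t * y ^ j ≤ (1 + w) ^ G.card *
      (((G.card : ℝ) + 1) ^ τ * Real.exp (y * G.card) * (w / (1 + w)) ^ (j * τ)) := by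
  classical
  set P := ((insert 0 G).powersetCard τ ×ˢ (G.powerset.filter fun Y => Y.card ≤ j)).filter
    fun p => (p.2 + p.1).card = j * τ ∧ p.2 + p.1 ⊆ G with hP
  have h1 := union_weight G t hw 𝓕 P (fun p T => p.2 + p.1 ⊆ T)
    ((1 + w) ^ G.card * (w / (1 + w)) ^ (j * τ)) (fun T hT => by
      obtain ⟨hTG, hc, B, C, hB, hC, e, kC, kB⟩ := h T hT
      refine ⟨hTG, hc, ?_⟩
      obtain ⟨D, hDC, hD⟩ := exists_subset_card_eq kC
      obtain ⟨Y0, hY0, hdis, hcard⟩ := greedy (fun x => D.image (x + ·))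
        (D.image (Nat.cast : ℕ → ℤ)) (B.erase 0)
        (fun x _ a ha => by
          obtain ⟨d, hd, rfl⟩ := mem_image.1 ha
          exact mem_image.2 ⟨d, hd, by push_cast; ring⟩)
        (fun x _ => (card_pos.1 (by omega)).image _)
      rw [card_image_of_injective _ Nat.cast_injective, hD] at hcard
      have hj : j ≤ Y0.card := by
        have := Nat.lt_of_mul_lt_mul_left (kB.trans_le hcard)
        omega
      obtain ⟨Y, hY, hYc⟩ := exists_subset_card_eq hj
      have hsub : Y + D ⊆ T := by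
        intro a ha
        obtain ⟨b, hb, d, hd, rfl⟩ := mem_add.1 ha
        have hb' := hY0 (hY hb)
        exact add_mem_of e (mem_of_mem_erase hb') (hDC hd)
          (by have := ne_of_mem_erase hb'; omega)
      refine ⟨(D, Y), mem_filter.2 ⟨mem_product.2 ⟨mem_powersetCard.2 ⟨?_, hD⟩,
        mem_filter.2 ⟨mem_powerset.2 ?_, hYc.le⟩⟩, ?_, hsub.trans hTG⟩, hsub⟩
      · intro d hd
        by_cases h0 : d = 0
        · rw [h0]
          exact mem_insert_self _ _
        · exact mem_insert_of_mem (hTG (left_sub (e.trans (add_comm B C)) hB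
            (mem_erase.2 ⟨h0, hDC hd⟩)))
      · exact ((hY.trans hY0).trans (left_sub e hC)).trans hTG
      · have e1 : Y + D = Y.biUnion fun x => D.image (x + ·) := by
          ext a
          simp only [mem_add, mem_biUnion, mem_image]
        show (Y + D).card = j * τ
        rw [e1, card_biUnion fun x hx y hy hxy => hdis x (hY hx) y (hY hy) hxy]
        simp only [card_image_of_injective _ (add_right_injective _), hD, sum_const, hYc,
          smul_eq_mul])
    (fun p hp => by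
      obtain ⟨-, hc, hs⟩ := mem_filter.1 hp
      have hle : j * τ ≤ G.card := hc ▸ card_le_card hs
      rw [sum_contain G _ hs, hc, div_pow]
      have e : (1 + w) ^ G.card = (1 + w) ^ (G.card - j * τ) * (1 + w) ^ (j * τ) := by
        rw [← pow_add, Nat.sub_add_cancel hle]
      rw [e]
      have : (1 + w) ^ (j * τ) ≠ 0 := by positivity
      exact le_of_eq (by field_simp))
  have h2 : P.card ≤ (G.card + 1) ^ τ * (G.powerset.filter fun Y => Y.card ≤ j).card := by
    refine (card_filter_le _ _).trans ?_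
    rw [card_product, card_powersetCard]
    refine Nat.mul_le_mul_right _ ((Nat.choose_le_pow _ _).trans ?_)
    exact Nat.pow_le_pow_left (card_insert_le _ _) _
  have h3 : (P.card : ℝ) ≤ ((G.card : ℝ) + 1) ^ τ *
      (G.powerset.filter fun Y => Y.card ≤ j).card := by exact_mod_cast h2
  have h4 := card_small_le G j y hy hy1
  calc (𝓕.card : ℝ) * w ^ t * y ^ j
      ≤ (P.card * ((1 + w) ^ G.card * (w / (1 + w)) ^ (j * τ))) * y ^ j :=
        mul_le_mul_of_nonneg_right h1 (by positivity)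
    _ ≤ ((((G.card : ℝ) + 1) ^ τ * (G.powerset.filter fun Y => Y.card ≤ j).card) *
          ((1 + w) ^ G.card * (w / (1 + w)) ^ (j * τ))) * y ^ j := by gcongr
    _ = (1 + w) ^ G.card * (((G.card : ℝ) + 1) ^ τ *
          (((G.powerset.filter fun Y => Y.card ≤ j).card : ℝ) * y ^ j) *
            (w / (1 + w)) ^ (j * τ)) := by ring
    _ ≤ _ := by gcongr

/-- One summand has at most `τ` elements. -/
theorem case_c (G : Finset ℕ) (hG : 0 ∉ G) (t τ : ℕ) {w : ℝ} (hw : 0 ≤ w)
    (𝓕 : Finset (Finset ℕ))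
    (h : ∀ T ∈ 𝓕, T ⊆ G ∧ T.card = t ∧ ∃ B C : Finset ℕ, 0 ∈ B ∧ 0 ∈ C ∧ C ≠ {0} ∧
      insert 0 T = B + C ∧ C.card ≤ τ) :
    (𝓕.card : ℝ) * w ^ t ≤ (1 + w) ^ G.card * (3 * ((G.card : ℝ) + 1) ^ τ *
      Real.exp (-(w / (1 + w) ^ (τ + 1) * (((G.card : ℝ) - τ) / ((τ : ℝ) + 1) ^ 2)))) := by
  classical
  set P := ((insert 0 G).powerset.filter fun C => C.card ≤ τ).filter
    fun C => 0 ∈ C ∧ C ≠ {0} with hP
  have hθ : 0 ≤ w / (1 + w) ^ (τ + 1) := by positivity
  have h1 := union_weight G t hw 𝓕 P (fun C T => ∃ B : Finset ℕ, insert 0 T = B + C)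
    ((1 + w) ^ G.card *
      Real.exp (-(w / (1 + w) ^ (τ + 1) * (((G.card : ℝ) - τ) / ((τ : ℝ) + 1) ^ 2))))
    (fun T hT => by
      obtain ⟨hTG, hc, B, C, hB, hC, hC1, e, kC⟩ := h T hT
      refine ⟨hTG, hc, C, mem_filter.2 ⟨mem_filter.2 ⟨mem_powerset.2 ?_, kC⟩, hC, hC1⟩, B, e⟩
      intro d hd
      by_cases h0 : d = 0
      · rw [h0]
        exact mem_insert_self _ _
      · exact mem_insert_of_mem (hTG (left_sub (e.trans (add_comm B C)) hB
          (mem_erase.2 ⟨h0, hd⟩))))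
    (fun C hC => by
      obtain ⟨hC', hC0, hC1⟩ := mem_filter.1 hC
      have kC := (mem_filter.1 hC').2
      obtain ⟨c1, hc1, hc10⟩ := exists_ne_zero hC0 hC1
      set D : Finset ℤ := insert (c1 : ℤ) (C.image fun c : ℕ => -(c : ℤ)) with hD
      have hDc : D.card ≤ τ + 1 := (card_insert_le _ _).trans (by
        have := card_image_le (s := C) (f := fun c : ℕ => -(c : ℤ))
        omega)
      have hD0 : (0 : ℤ) ∈ D := mem_insert_of_mem (mem_image.2 ⟨0, hC0, by simp⟩)
      obtain ⟨Y, hY, hdis, hcard⟩ := greedy (fun x => G.filter fun a => (a : ℤ) - x ∈ D) D (G \ C)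
        (fun x _ a ha => (mem_filter.1 ha).2)
        (fun x hx => ⟨x, mem_filter.2 ⟨(mem_sdiff.1 hx).1, by simpa using hD0⟩⟩)
      have hb := sum_blocks (fun x => G.filter fun a => (a : ℤ) - x ∈ D) (τ + 1) w hw Y G
        (fun x hx => ⟨mem_filter.2 ⟨(mem_sdiff.1 (hY hx)).1, by simpa using hD0⟩,
          filter_subset _ _, le_trans (card_le_card_of_injOn (fun a : ℕ => (a : ℤ) - x)
            (fun a ha => (mem_filter.1 ha).2) (fun a _ b _ hab => by
              simpa using hab)) hDc⟩) hdis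
      refine le_trans (sum_le_sum_of_subset_of_nonneg ?_ fun T _ _ => by positivity)
        (hb.trans (mul_le_mul_of_nonneg_left ?_ (by positivity)))
      · intro T hT
        obtain ⟨hTG, B, e⟩ := mem_filter.1 hT
        refine mem_filter.2 ⟨hTG, fun x hx hone => ?_⟩
        rw [mem_powerset] at hTG
        obtain ⟨hxG, hxC⟩ := mem_sdiff.1 (hY hx)
        have hxT : x ∈ T := (mem_inter.1 (hone ▸ mem_singleton_self x)).1
        have key : ∀ a ∈ T, (a : ℤ) - x ∈ D → a = x := fun a ha hd =>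
          mem_singleton.1 (hone ▸ mem_inter.2 ⟨ha, mem_filter.2 ⟨hTG ha, hd⟩⟩)
        obtain ⟨b, hb, c, hc, hbc⟩ := mem_add.1 (e ▸ mem_insert_of_mem hxT)
        have hb0 : b ≠ 0 := by
          rintro rfl
          exact hxC (by simpa [← hbc] using hc)
        have hbT : b ∈ T := left_sub e hC0 (mem_erase.2 ⟨hb0, hb⟩)
        have h3 := key b hbT (mem_insert_of_mem (mem_image.2 ⟨c, hc, by
          rw [← hbc]
          push_cast
          ring⟩))
        have h4 := key (b + c1) (add_mem_of e hb hc1 (by omega)) (by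
          rw [h3]
          push_cast
          rw [add_sub_cancel_left]
          exact mem_insert_self _ _)
        omega
      · have h3 : (G.card : ℝ) - τ ≤ ((τ : ℝ) + 1) ^ 2 * Y.card := by
          have h4 : G.card ≤ (τ + 1) ^ 2 * Y.card + τ := by
            have h5 := le_card_sdiff C G
            have h6 := Nat.mul_le_mul_right Y.card (Nat.pow_le_pow_left hDc 2)
            omega
          have h7 : (G.card : ℝ) ≤ ((τ : ℝ) + 1) ^ 2 * Y.card + τ := by exact_mod_cast h4
          linarith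
        have h4 : ((G.card : ℝ) - τ) / ((τ : ℝ) + 1) ^ 2 ≤ Y.card := by
          rw [div_le_iff₀ (by positivity)]
          linarith
        have h5 : w / (1 + w) ^ (τ + 1) ≤ 1 := by
          rw [div_le_one (by positivity)]
          have : 1 + w ≤ (1 + w) ^ (τ + 1) := le_self_pow₀ (by linarith) (by omega)
          linarith
        calc (1 - w / (1 + w) ^ (τ + 1)) ^ Y.card
            ≤ Real.exp (-(w / (1 + w) ^ (τ + 1))) ^ Y.card :=
              pow_le_pow_left₀ (by linarith)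
                (by linarith [Real.add_one_le_exp (-(w / (1 + w) ^ (τ + 1)))]) _
          _ = Real.exp (-(w / (1 + w) ^ (τ + 1) * Y.card)) := by
              rw [← Real.exp_nat_mul]
              congr 1
              ring
          _ ≤ _ := Real.exp_le_exp.2 (neg_le_neg (mul_le_mul_of_nonneg_left h4 hθ)))
  have hn : (0 : ℝ) < (G.card : ℝ) + 1 := by positivity
  have h2 := card_small_le (insert 0 G) τ (1 / ((G.card : ℝ) + 1)) (by positivity)
    (by rw [div_le_one hn]; linarith [Nat.cast_nonneg (α := ℝ) G.card])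
  rw [card_insert_of_notMem hG] at h2
  push_cast at h2
  rw [one_div_mul_cancel hn.ne', div_pow, one_pow, mul_one_div,
    div_le_iff₀ (by positivity)] at h2
  have h3 : (P.card : ℝ) ≤ 3 * ((G.card : ℝ) + 1) ^ τ := by
    have h4 : (P.card : ℝ) ≤ ((insert 0 G).powerset.filter fun C => C.card ≤ τ).card := by
      exact_mod_cast card_filter_le _ _
    have h5 : Real.exp 1 ≤ 3 := by linarith [Real.exp_one_lt_d9]
    exact h4.trans (h2.trans (mul_le_mul_of_nonneg_right h5 (by positivity)))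
  refine h1.trans ((mul_le_mul_of_nonneg_right h3 (by positivity)).trans (le_of_eq ?_))
  ring

/-- Some element of a reducible set is a sum of two smaller elements. -/
theorem case_tiny (G : Finset ℕ) (t : ℕ) (𝓕 : Finset (Finset ℕ))
    (h : ∀ T ∈ 𝓕, T ⊆ G ∧ T.card = t + 1 ∧ Red T) :
    𝓕.card ≤ G.card.choose t * t ^ 2 := by
  have hsub : 𝓕 ⊆ (G.powersetCard t).biUnion fun S =>
      (S ×ˢ S).image fun p => insert (p.1 + p.2) S := by
    intro T hT
    obtain ⟨hTG, hc, B, C, hB, hC, hB1, hC1, e⟩ := h T hT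
    obtain ⟨b, hb, hb0⟩ := exists_ne_zero hB hB1
    obtain ⟨c, hc', hc0⟩ := exists_ne_zero hC hC1
    have hm : b + c ∈ T := add_mem_of e hb hc' (by omega)
    have hbT : b ∈ T := left_sub e hC (mem_erase.2 ⟨hb0, hb⟩)
    have hcT : c ∈ T := left_sub (e.trans (add_comm B C)) hB (mem_erase.2 ⟨hc0, hc'⟩)
    refine mem_biUnion.2 ⟨T.erase (b + c), mem_powersetCard.2
      ⟨(erase_subset _ _).trans hTG, by rw [card_erase_of_mem hm, hc]; rfl⟩,
      mem_image.2 ⟨(b, c), mem_product.2 ⟨mem_erase.2 ⟨by omega, hbT⟩,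
        mem_erase.2 ⟨by omega, hcT⟩⟩, insert_erase hm⟩⟩
  refine (card_le_card hsub).trans ?_
  rw [← card_powersetCard]
  refine card_biUnion_le_card_mul _ _ _ fun S hS => card_image_le.trans ?_
  rw [card_product, (mem_powersetCard.1 hS).2, sq]

end Pool.Agent.Lib.MP_bba460_co
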