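import Mathlib

/-! Atoms of the monoid of finite subsets of `H` containing `0`, under sumset addition. -/

namespace Pool.Agent.Lib.MP_bba460_co
open Pointwise

/-- `A` is an atom of the monoid of finite subsets of `H` that contain `0`. -/
def IsAtom (H : AddSubmonoid ℕ) (A : Finset ℕ) : Prop :=
  0 ∈ A ∧ (∀ a ∈ A, a ∈ H) ∧ A ≠ {0} ∧
    ∀ B C : Finset ℕ, 0 ∈ B → (∀ b ∈ B, b ∈ H) → 0 ∈ C → (∀ c ∈ C, c ∈ H) →
      A = B + C → B = {0} ∨ C = {0}

/-- The number of atoms with `k` elements and largest element at most `l`. -/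
noncomputable def alpha (H : AddSubmonoid ℕ) (k l : ℕ) : ℕ :=
  Set.ncard {A : Finset ℕ | IsAtom H A ∧ A.card = k ∧ ∀ a ∈ A, a ≤ l}

/-- The number of elements of `H` in the interval `[1, l]`. -/
noncomputable def cnt (H : AddSubmonoid ℕ) (l : ℕ) : ℕ :=
  Set.ncard {a : ℕ | a ∈ H ∧ 1 ≤ a ∧ a ≤ l}

end Pool.Agent.Lib.MP_bba460_co
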