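import Pool.Agent.Lib.MP_bba460_co.LenCube

set_option autoImplicit false

namespace Pool.Agent.Lib.MP_bba460_co.Len

open Pointwise

variable {N : ℕ} {L : Finset ℕ}

/-- The first `l - 1` directions. -/
def seg (N l : ℕ) : Finset (Fin N) := Finset.univ.filter fun i => i.1 + 1 < l

/-- Base points: the origin and, in the layer of `l`, the vectors `1 - f j` and `2 · 1`. -/
def Zs (N : ℕ) (L : Finset ℕ) : Set ((Fin N → ℕ) × ℕ) :=
  {z | z = 0 ∨ ∃ l ∈ L, z.2 = N + l ∧
    ((∀ i, z.1 i = 2) ∨ ∃ j ∈ seg N l, z.1 j = 0 ∧ ∀ i, i ≠ j → z.1 i = 1)}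

/-- The canonical cofactor of the face `R`. -/
def Kc (L : Finset ℕ) (R : Finset (Fin N)) : Set ((Fin N → ℕ) × ℕ) := Zs N L + cube Rᶜ

/-- The extra point of the layer of `l` for the face `R`. -/
def ex (l : ℕ) (R : Finset (Fin N)) : (Fin N → ℕ) × ℕ := (fun i => if i ∈ R then 1 else 2, N + l)

theorem mem_K {R : Finset (Fin N)} {x : (Fin N → ℕ) × ℕ} : x ∈ Kc L R ↔
    (x.2 = 0 ∧ ∀ i, x.1 i ≤ 1 ∧ (i ∈ R → x.1 i = 0)) ∨ ∃ l ∈ L, x.2 = N + l ∧
      ((∀ i, 2 ≤ x.1 i ∧ x.1 i ≤ 3 ∧ (i ∈ R → x.1 i = 2)) ∨ ∃ j ∈ seg N l,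
        (x.1 j ≤ 1 ∧ (j ∈ R → x.1 j = 0)) ∧
          ∀ i, i ≠ j → 1 ≤ x.1 i ∧ x.1 i ≤ 2 ∧ (i ∈ R → x.1 i = 1)) := by
  have g : ∀ z ∈ Zs N L, x.2 = z.2 →
      (∀ i, z.1 i ≤ x.1 i ∧ x.1 i ≤ z.1 i + 1 ∧ (i ∈ R → x.1 i = z.1 i)) → x ∈ Kc L R :=
    fun z hz e h => ⟨z, hz, (fun i => x.1 i - z.1 i, 0), ⟨rfl, fun i => by
      have := h i
      simp only [Finset.mem_compl, not_not]
      exact ⟨by omega, fun c => by have := this.2.2 c; omega⟩⟩,
      Prod.ext (funext fun i => by
        have := h i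
        simp only [Prod.fst_add, Pi.add_apply]
        omega) (by simp [e])⟩
  constructor
  · rintro ⟨z, hz, e, ⟨e1, e2⟩, rfl⟩
    simp only [Finset.mem_compl, not_not] at e2
    simp only [Prod.fst_add, Prod.snd_add, Pi.add_apply, e1, add_zero]
    rcases hz with rfl | ⟨l, hl, h1, h2 | ⟨j, hj, h2, h3⟩⟩
    · exact Or.inl ⟨rfl, by simpa using e2⟩
    · refine Or.inr ⟨l, hl, h1, Or.inl fun i => ?_⟩
      have := h2 i
      have := e2 i
      exact ⟨by omega, by omega, fun c => by have := this.2 c; omega⟩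
    · refine Or.inr ⟨l, hl, h1, Or.inr ⟨j, hj, ?_, fun i hi => ?_⟩⟩
      · have := e2 j
        exact ⟨by omega, fun c => by have := this.2 c; omega⟩
      · have := h3 i hi
        have := e2 i
        exact ⟨by omega, by omega, fun c => by have := this.2 c; omega⟩
  · rintro (⟨h1, h2⟩ | ⟨l, hl, h1, h2 | ⟨j, hj, h2, h3⟩⟩)
    · exact g 0 (Or.inl rfl) h1 (by simpa using h2)
    · exact g (fun _ => 2, N + l) (Or.inr ⟨l, hl, rfl, Or.inl fun _ => rfl⟩) h1 h2
    · refine g (fun i => if i = j then 0 else 1, N + l)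
        (Or.inr ⟨l, hl, rfl, Or.inr ⟨j, hj, by simp, fun i hi => by simp [hi]⟩⟩) h1 fun i => ?_
      by_cases c : i = j
      · subst c
        simpa using h2
      · simpa [c] using h3 i c

theorem K_add {R S : Finset (Fin N)} (h : Disjoint R S) : Kc L (R ∪ S) + cube S = Kc L R := by
  rw [Kc, add_assoc, cube_add (Finset.disjoint_left.2 fun i a b => by simp [b] at a), Kc]
  congr 2
  ext i
  have := @Finset.disjoint_left.1 h i
  by_cases a : i ∈ R <;> by_cases b : i ∈ S <;> simp_all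

theorem K_full (R : Finset (Fin N)) : Kc L R + cube R = Kc L ∅ := by
  simpa using K_add (L := L) (Finset.disjoint_empty_left R)

theorem zero_K (R : Finset (Fin N)) : 0 ∈ Kc L R := mem_K.2 (Or.inl ⟨rfl, by simp⟩)

theorem ex_add {l : ℕ} (hl : l ∈ L) {R : Finset (Fin N)} (hR : R ⊆ seg N l)
    {e : (Fin N → ℕ) × ℕ} (he : e ∈ cube R) : ex l R + e ∈ Kc L ∅ := by
  refine mem_K.2 (Or.inr ⟨l, hl, by simp [ex, he.1], ?_⟩)
  simp only [ex, Prod.fst_add, Pi.add_apply, Finset.notMem_empty, false_imp_iff, and_true]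
  by_cases c : ∃ j ∈ R, e.1 j = 0
  · obtain ⟨j, hj, c⟩ := c
    refine Or.inr ⟨j, hR hj, by simp [hj, c], fun i _ => ?_⟩
    have := he.2 i
    split_ifs with d
    · omega
    · have := this.2 d
      omega
  · refine Or.inl fun i => ?_
    have := he.2 i
    split_ifs with d
    · have : e.1 i ≠ 0 := fun q => c ⟨i, d, q⟩
      omega
    · omega

/-- Upper bound for the cofactors of a face. -/
theorem sub_max (h2 : ∀ l ∈ L, 2 ≤ l) {R : Finset (Fin N)} {p : (Fin N → ℕ) × ℕ}
    (h : ∀ S ⊆ R, p + top S ∈ Kc L ∅) : p ∈ Kc L R ∨ ∃ l ∈ L, R ⊆ seg N l ∧ p = ex l R := by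
  have g : ∀ S ⊆ R, (p.2 = 0 ∧ ∀ i, p.1 i + (if i ∈ S then 1 else 0) ≤ 1) ∨
      ∃ l ∈ L, p.2 = N + l ∧
      ((∀ i, 2 ≤ p.1 i + (if i ∈ S then 1 else 0) ∧ p.1 i + (if i ∈ S then 1 else 0) ≤ 3) ∨
        ∃ j ∈ seg N l, p.1 j + (if j ∈ S then 1 else 0) ≤ 1 ∧ ∀ i, i ≠ j →
          1 ≤ p.1 i + (if i ∈ S then 1 else 0) ∧ p.1 i + (if i ∈ S then 1 else 0) ≤ 2) :=
    fun S hS => by simpa [top] using mem_K.1 (h S hS)
  rcases g R subset_rfl with ⟨a, b⟩ | ⟨l, hl, a, b | ⟨j, hj, b, c⟩⟩
  · refine Or.inl (mem_K.2 (Or.inl ⟨a, fun i => ?_⟩))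
    have := b i
    exact ⟨by omega, fun c => by simp only [c, if_true] at this; omega⟩
  · by_cases d : ∀ i, 2 ≤ p.1 i
    · refine Or.inl (mem_K.2 (Or.inr ⟨l, hl, a, Or.inl fun i => ?_⟩))
      have := b i
      have := d i
      exact ⟨by omega, by omega, fun c => by simp only [c, if_true] at *; omega⟩
    have k : ∀ j, p.1 j ≤ 1 → j ∈ seg N l ∧
        ∀ i, i ≠ j → p.1 i + (if i ∈ R then 1 else 0) ≤ 2 := fun j hj => by
      rcases g (R.erase j) (R.erase_subset j) with ⟨a1, -⟩ | ⟨l', hl', a1, b1 | ⟨j', hj', b1, c1⟩⟩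
      · have := h2 l hl
        omega
      · have := b1 j
        simp at this
        omega
      · obtain rfl : l' = l := by omega
        obtain rfl : j' = j := by
          by_contra q
          have := b j'
          simp only [Finset.mem_erase, ne_eq, q, not_false_eq_true, true_and] at b1
          omega
        exact ⟨hj', fun i hi => by simpa [hi] using (c1 i hi).2⟩
    obtain ⟨j, hj⟩ := not_forall.1 d
    have k1 : ∀ i, p.1 i + (if i ∈ R then 1 else 0) = 2 := fun i => by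
      have := b i
      by_cases q : i = j
      · subst q
        split_ifs at * <;> omega
      · have := (k j (by omega)).2 i q
        omega
    refine Or.inr ⟨l, hl, fun i hi => (k i ?_).1, Prod.ext (funext fun i => ?_) a⟩
    · have := k1 i
      simp only [hi, if_true] at this
      omega
    · have := k1 i
      simp only [ex]
      split_ifs at * <;> omega
  · refine Or.inl (mem_K.2 (Or.inr ⟨l, hl, a, Or.inr ?_⟩))
    rcases g ∅ (Finset.empty_subset R) with ⟨a1, -⟩ | ⟨l', hl', a1, b1 | ⟨j', hj', b1, c1⟩⟩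
    · have := h2 l hl
      omega
    · have := b1 j
      simp at this
      omega
    obtain rfl : l' = l := by omega
    simp only [Finset.notMem_empty, if_false, add_zero] at b1 c1
    have k : ∀ i, p.1 i + (if i ∈ R then 1 else 0) ≤ 2 := fun i => by
      by_cases q : i = j
      · subst q
        omega
      · exact (c i q).2
    by_cases d : p.1 j' = 0
    · refine ⟨j', hj', ⟨b1, fun _ => d⟩, fun i hi => ?_⟩
      have := c1 i hi
      have := k i
      exact ⟨by omega, by omega, fun q => by simp only [q, if_true] at this; omega⟩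
    · have k1 : ∀ i, 1 ≤ p.1 i := fun i => by
        by_cases q : i = j'
        · subst q
          omega
        · exact (c1 i q).1
      refine ⟨j, hj, ⟨by omega, fun q => ?_⟩, fun i _ => ?_⟩
      · have := k1 j
        simp only [q, if_true] at b
        omega
      · have := k1 i
        have := k i
        exact ⟨by omega, by omega, fun q => by simp only [q, if_true] at this; omega⟩

theorem cof_max (h2 : ∀ l ∈ L, 2 ≤ l) {R : Finset (Fin N)} {P : Set ((Fin N → ℕ) × ℕ)}
    (e : P + cube R = Kc L ∅) {p : (Fin N → ℕ) × ℕ} (hp : p ∈ P) :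
    p ∈ Kc L R ∨ ∃ l ∈ L, R ⊆ seg N l ∧ p = ex l R :=
  sub_max h2 fun _ hS => e ▸ ⟨p, hp, _, top_cube hS, rfl⟩

/-- Every point of the canonical cofactor is needed. -/
theorem cof_min (h2 : ∀ l ∈ L, 2 ≤ l) {R : Finset (Fin N)} {P : Set ((Fin N → ℕ) × ℕ)}
    (e : P + cube R = Kc L ∅) : Kc L R ⊆ P := by
  intro x hx
  have g : ∀ S ⊆ R, ∃ p, (p ∈ Kc L R ∨ ∃ l ∈ L, R ⊆ seg N l ∧ p = ex l R) ∧ p.2 = x.2 ∧
      (∀ i, i ∉ R → p.1 i = x.1 i) ∧ (∀ i, p.1 i ≤ x.1 i + (if i ∈ S then 1 else 0) ∧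
        x.1 i + (if i ∈ S then 1 else 0) ≤ p.1 i + 1) ∧
      ((∀ i ∈ R, p.1 i = x.1 i) → x ∈ P) := fun S hS => by
    obtain ⟨p, hp, c, hc, q⟩ : x + top S ∈ P + cube R := by
      rw [e, ← K_full R]
      exact ⟨x, hx, _, top_cube hS, rfl⟩
    have q1 : ∀ i, p.1 i + c.1 i = x.1 i + if i ∈ S then 1 else 0 :=
      fun i => congrFun (congrArg Prod.fst q) i
    have q2 : p.2 = x.2 := by simpa [top, hc.1] using congrArg Prod.snd q
    have q3 : ∀ i, i ∉ R → p.1 i = x.1 i := fun i hi => by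
      have := q1 i
      rw [if_neg fun a => hi (hS a), (hc.2 i).2 hi] at this
      omega
    refine ⟨p, cof_max h2 e hp, q2, q3, fun i => ?_, fun a => ?_⟩
    · have := q1 i
      have := (hc.2 i).1
      omega
    · have : p = x := Prod.ext (funext fun i => by
        by_cases b : i ∈ R
        exacts [a i b, q3 i b]) q2
      exact this ▸ hp
  rcases mem_K.1 hx with ⟨a, b⟩ | ⟨l, hl, a, b | ⟨j, hj, b, c⟩⟩
  · obtain ⟨p, -, -, -, p3, p4⟩ := g ∅ (Finset.empty_subset R)
    refine p4 fun i hi => ?_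
    have := p3 i
    have := (b i).2 hi
    simp only [Finset.notMem_empty, if_false] at *
    omega
  · obtain ⟨p, p0, -, -, p3, p4⟩ := g R subset_rfl
    refine p4 fun i hi => ?_
    have := p3 i
    have := (b i).2.2 hi
    have : p.1 i ≤ 2 := by
      rcases p0 with p0 | ⟨l', -, -, rfl⟩
      · rcases mem_K.1 p0 with ⟨-, u⟩ | ⟨-, -, -, u | ⟨j', -, u, v⟩⟩
        · have := (u i).1
          omega
        · exact ((u i).2.2 hi).le
        · by_cases q : i = j'
          · subst q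
            omega
          · exact (v i q).2.1
      · simp [ex, hi]
    simp only [hi, if_true] at *
    omega
  by_cases d : x.1 j = 0
  · obtain ⟨p, p0, p1, -, p3, p4⟩ := g ∅ (Finset.empty_subset R)
    simp only [Finset.notMem_empty, if_false] at p3
    refine p4 fun i hi => ?_
    have := p3 i
    have := p3 j
    by_cases q : i = j
    · subst q
      omega
    have := (c i q).2.2 hi
    have : 1 ≤ p.1 i := by
      rcases p0 with p0 | ⟨l', -, -, rfl⟩
      · rcases mem_K.1 p0 with ⟨u, -⟩ | ⟨-, -, -, u | ⟨j', -, u, v⟩⟩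
        · have := h2 l hl
          omega
        · have := (u i).1
          omega
        · obtain rfl : j = j' := by
            by_contra r
            have := (v j r).1
            omega
          exact (v i q).1
      · simp [ex, hi]
    omega
  · obtain ⟨p, p0, p1, p2, p3, p4⟩ := g R subset_rfl
    have hj' : j ∉ R := fun r => d (b.2 r)
    refine p4 fun i hi => ?_
    have := p3 i
    have := p2 j hj'
    have := (c i fun r => hj' (r ▸ hi)).2.2 hi
    have : p.1 i ≤ 1 := by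
      rcases p0 with p0 | ⟨l', -, -, rfl⟩
      · rcases mem_K.1 p0 with ⟨-, u⟩ | ⟨-, -, -, u | ⟨j', -, u, v⟩⟩
        · exact (u i).1
        · have := (u j).1
          omega
        · by_cases q : i = j'
          · subst q
            exact u.1
          · exact ((v i q).2.2 hi).le
      · simp [ex, hi]
    simp only [hi, if_true] at *
    omega

end Pool.Agent.Lib.MP_bba460_co.Len
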