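import Pool.Agent.Lib.MP_bba460_co.Defs

set_option autoImplicit false

namespace Pool.Agent.Lib.MP_bba460_co.Len

open Pointwise

section general

variable {M : Type} [AddCommMonoid M]

/-- Atoms for set addition among the sets that contain zero. -/
def At (A : Set M) : Prop :=
  0 ∈ A ∧ A ≠ {0} ∧ ∀ B C : Set M, 0 ∈ B → 0 ∈ C → A = B + C → B = {0} ∨ C = {0}

/-- `X` is a sum of `k` atoms. -/
inductive Ln : Set M → ℕ → Prop
  | nil : Ln {0} 0
  | cons {A X : Set M} {k : ℕ} : At A → Ln X k → Ln (A + X) (k + 1)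

theorem Ln.zero_mem {X : Set M} {k : ℕ} (h : Ln X k) : 0 ∈ X := by
  induction h with
  | nil => rfl
  | cons a _ ih => exact ⟨0, a.1, 0, ih, add_zero 0⟩

theorem sub_left {A B : Set M} (h : 0 ∈ B) : A ⊆ A + B := fun a ha => ⟨a, ha, 0, h, add_zero a⟩

theorem sub_right {A B : Set M} (h : 0 ∈ A) : B ⊆ A + B := fun b hb => ⟨0, h, b, hb, zero_add b⟩

variable {M' : Type} [AddCommMonoid M'] {φ : M →+ M'} {Y : Set M}

theorem pull (h : ∀ a ∈ Y, ∀ b ∈ Y, ∀ c ∈ Y, φ (a + b) = φ c → a + b = c) (h0 : 0 ∈ Y)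
    {Z : Set M} (hZ : Z ⊆ Y) {B C : Set M'} (hB : 0 ∈ B) (hC : 0 ∈ C) (e : φ '' Z = B + C) :
    ∃ B' C' : Set M, B' ⊆ Y ∧ C' ⊆ Y ∧ 0 ∈ B' ∧ 0 ∈ C' ∧ B = φ '' B' ∧ C = φ '' C' ∧
      Z = B' + C' := by
  have z0 : 0 ∈ Z := by
    obtain ⟨z, hz, ez⟩ : (0 : M') ∈ φ '' Z := e ▸ sub_left hC hB
    have := h z (hZ hz) 0 h0 0 h0 (by simpa using ez)
    rw [add_zero] at this
    exact this ▸ hz
  have k : ∀ D : Set M', D ⊆ B + C → D = φ '' (Z ∩ φ ⁻¹' D) := fun D hD => by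
    rw [Set.image_inter_preimage, e, Set.inter_eq_right.2 hD]
  refine ⟨Z ∩ φ ⁻¹' B, Z ∩ φ ⁻¹' C, fun _ x => hZ x.1, fun _ x => hZ x.1, ⟨z0, by simpa using hB⟩,
    ⟨z0, by simpa using hC⟩, k B (sub_left hC), k C (sub_right hB), Set.Subset.antisymm ?_ ?_⟩
  · intro z hz
    obtain ⟨b, hb, c, hc, e1⟩ : φ z ∈ B + C := e ▸ ⟨z, hz, rfl⟩
    obtain ⟨b', hb', rfl⟩ : b ∈ φ '' Z := e ▸ sub_left hC hb
    obtain ⟨c', hc', rfl⟩ : c ∈ φ '' Z := e ▸ sub_right hB hc
    exact ⟨b', ⟨hb', hb⟩, c', ⟨hc', hc⟩,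
      h b' (hZ hb') c' (hZ hc') z (hZ hz) (by rw [map_add]; exact e1)⟩
  · rintro _ ⟨b, hb, c, hc, rfl⟩
    obtain ⟨z, hz, e1⟩ : φ b + φ c ∈ φ '' Z := e ▸ ⟨_, hb.2, _, hc.2, rfl⟩
    have := h b (hZ hb.1) c (hZ hc.1) z (hZ hz) (by rw [map_add, e1])
    show b + c ∈ Z
    rwa [this]

theorem img_zero (h : ∀ a ∈ Y, ∀ b ∈ Y, ∀ c ∈ Y, φ (a + b) = φ c → a + b = c) (h0 : 0 ∈ Y)
    {Z : Set M} (hZ : Z ⊆ Y) : φ '' Z = {0} ↔ Z = {0} := by
  refine ⟨fun e => ?_, fun e => by simp [e]⟩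
  have k : ∀ z ∈ Z, z = 0 := fun z hz => by
    have e1 : φ z ∈ ({0} : Set M') := e ▸ ⟨z, hz, rfl⟩
    simpa using h z (hZ hz) 0 h0 0 h0 (by simpa using e1)
  obtain ⟨z, hz, -⟩ : (0 : M') ∈ φ '' Z := e ▸ rfl
  exact Set.eq_singleton_iff_unique_mem.2 ⟨k z hz ▸ hz, k⟩

theorem at_img (h : ∀ a ∈ Y, ∀ b ∈ Y, ∀ c ∈ Y, φ (a + b) = φ c → a + b = c) (h0 : 0 ∈ Y)
    {A : Set M} (hA : A ⊆ Y) (a0 : 0 ∈ A) : At (φ '' A) ↔ At A := by
  constructor
  · rintro ⟨-, a1, a2⟩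
    refine ⟨a0, fun e => a1 ((img_zero h h0 hA).2 e), fun B C hB hC e => ?_⟩
    have b : B ⊆ Y := fun x hx => hA (e ▸ sub_left hC hx)
    have c : C ⊆ Y := fun x hx => hA (e ▸ sub_right hB hx)
    rw [← img_zero h h0 b, ← img_zero h h0 c]
    exact a2 _ _ ⟨0, hB, map_zero φ⟩ ⟨0, hC, map_zero φ⟩ (by rw [e, Set.image_add])
  · rintro ⟨-, a1, a2⟩
    refine ⟨⟨0, a0, map_zero φ⟩, fun e => a1 ((img_zero h h0 hA).1 e), fun B C hB hC e => ?_⟩
    obtain ⟨B', C', b, c, b0, c0, rfl, rfl, e1⟩ := pull h h0 hA hB hC e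
    rw [img_zero h h0 b, img_zero h h0 c]
    exact a2 _ _ b0 c0 e1

theorem ln_img (h : ∀ a ∈ Y, ∀ b ∈ Y, ∀ c ∈ Y, φ (a + b) = φ c → a + b = c) (h0 : 0 ∈ Y)
    (k : ℕ) : Ln (φ '' Y) k ↔ Ln Y k := by
  constructor
  · have g : ∀ (X : Set M') (k : ℕ), Ln X k → ∀ Z ⊆ Y, φ '' Z = X → Ln Z k := by
      intro X k hX
      induction hX with
      | nil => exact fun Z hZ e => (img_zero h h0 hZ).1 e ▸ Ln.nil
      | cons a x ih =>
        intro Z hZ e
        obtain ⟨B', C', b, c, b0, c0, rfl, rfl, rfl⟩ := pull h h0 hZ a.1 x.zero_mem e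
        exact Ln.cons ((at_img h h0 b b0).1 a) (ih C' c rfl)
    exact fun x => g _ k x Y subset_rfl rfl
  · have g : ∀ (X : Set M) (k : ℕ), Ln X k → X ⊆ Y → Ln (φ '' X) k := by
      intro X k hX
      induction hX with
      | nil => exact fun _ => by simpa using Ln.nil
      | cons a x ih =>
        intro hZ
        rw [Set.image_add]
        exact Ln.cons ((at_img h h0 ((sub_left x.zero_mem).trans hZ) a.1).2 a)
          (ih ((sub_right a.1).trans hZ))
    exact fun x => g _ k x subset_rfl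

end general

variable {N : ℕ}

/-- The face of the unit cube spanned by the directions in `R`. -/
def cube (R : Finset (Fin N)) : Set ((Fin N → ℕ) × ℕ) :=
  {x | x.2 = 0 ∧ ∀ i, x.1 i ≤ 1 ∧ (i ∉ R → x.1 i = 0)}

/-- The top vertex of a face. -/
def top (R : Finset (Fin N)) : (Fin N → ℕ) × ℕ := (fun i => if i ∈ R then 1 else 0, 0)

theorem zero_cube (R : Finset (Fin N)) : 0 ∈ cube R := ⟨rfl, fun _ => ⟨by simp, fun _ => rfl⟩⟩

theorem top_cube {R S : Finset (Fin N)} (h : R ⊆ S) : top R ∈ cube S :=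
  ⟨rfl, fun i => by
    have := @h i
    simp only [top]
    split_ifs <;> simp_all⟩

theorem cube_empty : cube (∅ : Finset (Fin N)) = {0} :=
  Set.eq_singleton_iff_unique_mem.2 ⟨zero_cube _, fun x hx =>
    Prod.ext (funext fun i => (hx.2 i).2 (by simp)) hx.1⟩

theorem cube_zero {R : Finset (Fin N)} (h : cube R = {0}) : R = ∅ := by
  refine Finset.eq_empty_of_forall_notMem fun i hi => ?_
  have e : top R ∈ ({0} : Set ((Fin N → ℕ) × ℕ)) := h ▸ top_cube subset_rfl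
  have := congrFun (congrArg Prod.fst e) i
  simp [top, hi] at this

theorem cube_add {R S : Finset (Fin N)} (h : Disjoint R S) : cube R + cube S = cube (R ∪ S) := by
  refine Set.Subset.antisymm ?_ fun x hx => ?_
  · rintro _ ⟨a, ha, b, hb, rfl⟩
    refine ⟨by simp [ha.1, hb.1], fun i => ?_⟩
    have h1 := ha.2 i
    have h2 := hb.2 i
    have h3 := @Finset.disjoint_left.1 h i
    simp only [Prod.fst_add, Pi.add_apply, Finset.mem_union]
    by_cases a : i ∈ R <;> by_cases b : i ∈ S <;> simp_all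
  · refine ⟨(fun i => if i ∈ R then x.1 i else 0, 0), ⟨rfl, fun i => ?_⟩,
      (fun i => if i ∈ R then 0 else x.1 i, 0), ⟨rfl, fun i => ?_⟩, Prod.ext (funext fun i => ?_) ?_⟩
    · have := hx.2 i
      dsimp only
      split_ifs <;> simp_all
    · have := hx.2 i
      dsimp only
      split_ifs <;> simp_all
    · simp only [Prod.fst_add, Pi.add_apply]
      split_ifs <;> simp
    · simp [hx.1]

theorem cube_half {S : Finset (Fin N)} {A B : Set ((Fin N → ℕ) × ℕ)} (hA : 0 ∈ A) (hB : 0 ∈ B)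
    (e : cube S = A + B) {R : Finset (Fin N)} (hR : ∀ i, i ∈ R ↔ ∃ a ∈ A, a.1 i = 1) :
    R ⊆ S ∧ A = cube R ∧ ∀ b ∈ B, ∀ i ∈ R, b.1 i = 0 := by
  have h1 : ∀ a ∈ A, a ∈ cube S := fun a ha => e ▸ sub_left hB ha
  have h2 : R ⊆ S := fun i hi => by
    obtain ⟨a, ha, e1⟩ := (hR i).1 hi
    by_contra c
    have := ((h1 a ha).2 i).2 c
    omega
  have h3 : ∀ b ∈ B, ∀ i ∈ R, b.1 i = 0 := fun b hb i hi => by
    obtain ⟨a, ha, e1⟩ := (hR i).1 hi
    have h4 : a + b ∈ cube S := e ▸ ⟨a, ha, b, hb, rfl⟩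
    have := (h4.2 i).1
    simp only [Prod.fst_add, Pi.add_apply] at this
    omega
  refine ⟨h2, Set.Subset.antisymm (fun a ha => ⟨(h1 a ha).1, fun i => ⟨((h1 a ha).2 i).1,
    fun c => ?_⟩⟩) fun x hx => ?_, h3⟩
  · have := ((h1 a ha).2 i).1
    have : a.1 i ≠ 1 := fun e1 => c ((hR i).2 ⟨a, ha, e1⟩)
    omega
  · obtain ⟨a, ha, b, hb, e1⟩ : x ∈ A + B :=
      e ▸ ⟨hx.1, fun i => ⟨(hx.2 i).1, fun c => (hx.2 i).2 fun d => c (h2 d)⟩⟩
    have h5 : b ∈ cube S := e ▸ sub_right hA hb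
    have : b = 0 := Prod.ext (funext fun i => by
      by_cases c : i ∈ R
      · exact h3 b hb i c
      · have h6 := (hx.2 i).2 c
        rw [← e1] at h6
        simp only [Prod.fst_add, Pi.add_apply] at h6
        simp only [Prod.fst_zero, Pi.zero_apply]
        omega) h5.1
    rw [← e1, this]
    simpa using ha

theorem cube_split {S : Finset (Fin N)} {A B : Set ((Fin N → ℕ) × ℕ)} (hA : 0 ∈ A) (hB : 0 ∈ B)
    (e : cube S = A + B) : ∃ R R' : Finset (Fin N), A = cube R ∧ B = cube R' ∧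
      S.card = R.card + R'.card := by
  classical
  obtain ⟨a1, a2, a3⟩ := cube_half hA hB e
    (R := Finset.univ.filter fun i => ∃ a ∈ A, a.1 i = 1) (by simp)
  obtain ⟨b1, b2, -⟩ := cube_half hB hA (e.trans (add_comm _ _))
    (R := Finset.univ.filter fun i => ∃ a ∈ B, a.1 i = 1) (by simp)
  generalize Finset.univ.filter (fun i => ∃ a ∈ A, a.1 i = 1) = R at *
  generalize Finset.univ.filter (fun i => ∃ a ∈ B, a.1 i = 1) = R' at *
  have d : Disjoint R R' := Finset.disjoint_left.2 fun i hi hj => by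
    have := a3 (top R') (b2 ▸ top_cube subset_rfl) i hi
    simp [top, hj] at this
  refine ⟨R, R', a2, b2, ?_⟩
  rw [← Finset.card_union_of_disjoint d]
  congr 1
  refine Finset.Subset.antisymm (fun i hi => ?_) (Finset.union_subset a1 b1)
  have h1 : top S ∈ cube (R ∪ R') := by
    rw [← cube_add d, ← a2, ← b2, ← e]
    exact top_cube subset_rfl
  by_contra c
  have := (h1.2 i).2 c
  simp [top, hi] at this

theorem at_cube {R : Finset (Fin N)} : At (cube R) ↔ R.card = 1 := by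
  constructor
  · rintro ⟨-, a1, a2⟩
    obtain ⟨i, hi⟩ : R.Nonempty := Finset.nonempty_iff_ne_empty.2 fun e => a1 (e ▸ cube_empty)
    have e : R = {i} ∪ R.erase i := by
      ext j
      by_cases c : j = i <;> simp [c, hi]
    rcases a2 _ _ (zero_cube {i}) (zero_cube (R.erase i))
      (by rw [cube_add (by simp), ← e]) with h | h
    · exact absurd (cube_zero h) (by simp)
    · rw [e, cube_zero h]
      simp
  · intro h
    refine ⟨zero_cube _, fun e => by simp [cube_zero e] at h, fun B C hB hC e => ?_⟩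
    obtain ⟨S, S', rfl, rfl, c⟩ := cube_split hB hC e
    rcases (by omega : S.card = 0 ∨ S'.card = 0) with d | d
    · exact Or.inl (Finset.card_eq_zero.1 d ▸ cube_empty)
    · exact Or.inr (Finset.card_eq_zero.1 d ▸ cube_empty)

theorem ln_cube (R : Finset (Fin N)) : Ln (cube R) R.card := by
  induction R using Finset.induction_on with
  | empty => exact cube_empty ▸ Ln.nil
  | insert a R ha ih =>
    rw [Finset.card_insert_of_notMem ha, Finset.insert_eq, ← cube_add (by simpa using ha)]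
    exact Ln.cons (at_cube.2 (by simp)) ih

theorem ln_cube_eq {X : Set ((Fin N → ℕ) × ℕ)} {k : ℕ} (h : Ln X k) :
    ∀ R : Finset (Fin N), cube R = X → k = R.card := by
  induction h with
  | nil => exact fun R e => by simp [cube_zero e]
  | cons a x ih =>
    intro R e
    obtain ⟨S, S', rfl, rfl, c⟩ := cube_split a.1 x.zero_mem e
    have := at_cube.1 a
    have := ih S' rfl
    omega

end Pool.Agent.Lib.MP_bba460_co.Len
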