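import Pool.Agent.Lib.MP_bba460_co.LenCore

set_option autoImplicit false

namespace Pool.Agent.Lib.MP_bba460_co.Len

open Pointwise

variable {N : ℕ} {L : Finset ℕ}

theorem one_flat (h3 : ∀ l ∈ L, l ≤ N + 1) {B C : Set ((Fin N → ℕ) × ℕ)} (h2 : ∀ l ∈ L, 2 ≤ l)
    (hB : 0 ∈ B) (hC : 0 ∈ C) (h : B + C ⊆ Kc L ∅) {b : (Fin N → ℕ) × ℕ} (hb : b ∈ B)
    (b0 : b.2 ≠ 0) : ∀ c ∈ C, c.2 = 0 := by
  intro c hc
  have k : ∀ x ∈ Kc L (∅ : Finset (Fin N)), x.2 = 0 ∨ (N + 2 ≤ x.2 ∧ x.2 ≤ 2 * N + 1) :=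
    fun x hx => by
      rcases mem_K.1 hx with ⟨a, -⟩ | ⟨l, hl, a, -⟩
      · exact Or.inl a
      · have := h2 l hl
        have := h3 l hl
        omega
  have h4 := k b (h (sub_left hC hb))
  have h5 := k c (h (sub_right hB hc))
  have h6 := k (b + c) (h ⟨b, hb, c, hc, rfl⟩)
  simp only [Prod.snd_add] at h6
  omega

theorem big_add {l : ℕ} (hl : l ∈ L) :
    insert (ex l (seg N l)) (Kc L (seg N l)) + cube (seg N l) = Kc L ∅ := by
  rw [Set.insert_eq, Set.union_add, K_full, Set.union_eq_right]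
  rintro _ ⟨_, rfl, e, he, rfl⟩
  exact ex_add hl subset_rfl he

theorem at_big (h2 : ∀ l ∈ L, 2 ≤ l) (h3 : ∀ l ∈ L, l ≤ N + 1) {l : ℕ} (hl : l ∈ L) :
    At (insert (ex l (seg N l)) (Kc L (seg N l))) := by
  have l2 := h2 l hl
  have l3 := h3 l hl
  have k1 : ∀ x ∈ insert (ex l (seg N l)) (Kc L (seg N l)), x.2 = N + l →
      (∀ i ∈ seg N l, x.1 i = 1) → x = ex l (seg N l) := by
    rintro x (rfl | hx) a b
    · rfl
    rcases mem_K.1 hx with ⟨u, -⟩ | ⟨l', -, u, v | ⟨j, hj, v, -⟩⟩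
    · omega
    · have i0 : (⟨0, by omega⟩ : Fin N) ∈ seg N l := by simp [seg]; omega
      have := (v _).2.2 i0
      have := b _ i0
      omega
    · obtain rfl : l' = l := by omega
      have := v.2 hj
      have := b j hj
      omega
  have k2 : ∀ x ∈ insert (ex l (seg N l)) (Kc L (seg N l)), x.2 = 0 →
      ∀ i ∈ seg N l, x.1 i = 0 := by
    rintro x (rfl | hx) a i hi
    · simp only [ex] at a
      omega
    rcases mem_K.1 hx with ⟨-, u⟩ | ⟨l', hl', u, -⟩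
    · exact (u i).2 hi
    · have := h2 l' hl'
      omega
  have k3 : ∀ B C : Set ((Fin N → ℕ) × ℕ), 0 ∈ B → 0 ∈ C →
      insert (ex l (seg N l)) (Kc L (seg N l)) = B + C → (∀ c ∈ C, c.2 = 0) → C = {0} := by
    intro B C hB hC e h
    have c0 : ∀ c ∈ C, ∀ i ∈ seg N l, c.1 i = 0 :=
      fun c hc => k2 c (e ▸ sub_right hB hc) (h c hc)
    obtain ⟨b, hb, c, hc, q⟩ : ex l (seg N l) ∈ B + C := e ▸ Set.mem_insert _ _
    have q1 : b = ex l (seg N l) := k1 b (e ▸ sub_left hC hb)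
      (by simpa [ex, h c hc] using congrArg Prod.snd q) fun i hi => by
        simpa [ex, hi, c0 c hc i hi] using congrFun (congrArg Prod.fst q) i
    refine Set.eq_singleton_iff_unique_mem.2 ⟨hC, fun d hd => ?_⟩
    have := k1 (b + d) (e ▸ ⟨b, hb, d, hd, rfl⟩) (by simp [q1, ex, h d hd])
      fun i hi => by simp [q1, ex, hi, c0 d hd i hi]
    rw [← q1] at this
    exact add_eq_left.1 this
  refine ⟨Set.mem_insert_of_mem _ (zero_K _), fun e => ?_, fun B C hB hC e => ?_⟩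
  · have q : ex l (seg N l) ∈ ({0} : Set ((Fin N → ℕ) × ℕ)) := e ▸ Set.mem_insert _ _
    have := congrArg Prod.snd q
    simp only [ex, Prod.snd_zero] at this
    omega
  · by_cases c : ∀ b ∈ B, b.2 = 0
    · exact Or.inl (k3 C B hC hB (e.trans (add_comm _ _)) c)
    · simp only [not_forall] at c
      obtain ⟨b, hb, b0⟩ := c
      refine Or.inr (k3 B C hB hC e (one_flat h3 h2 hB hC ?_ hb b0))
      rw [← e, ← big_add hl]
      exact sub_left (zero_cube _)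

theorem not_at (h2 : ∀ l ∈ L, 2 ≤ l) (hN : N + 1 ∈ L) {R : Finset (Fin N)}
    {P : Set ((Fin N → ℕ) × ℕ)} (e : P + cube R = Kc L ∅) (hP : At P) : ∃ l ∈ L, R = seg N l := by
  by_contra hR
  have hR' : ∀ l ∈ L, R ≠ seg N l := fun l hl q => hR ⟨l, hl, q⟩
  have ne : (Rᶜ).Nonempty := by
    rw [Finset.nonempty_iff_ne_empty]
    intro q
    refine hR' _ hN ?_
    rw [(Finset.compl_eq_empty_iff R).1 q]
    ext i
    simp [seg]
  obtain ⟨i, hi, hm⟩ := Finset.exists_min_image Rᶜ (fun i => i.1) ne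
  have hi' : i ∉ R := Finset.mem_compl.1 hi
  have k0 := K_add (L := L) (R := R) (S := {i}) (by simpa using hi')
  have k1 : Kc L (R ∪ {i}) ⊆ {x | ∀ c ∈ cube {i}, x + c ∈ P} := fun x hx c hc =>
    cof_min h2 e (k0 ▸ ⟨x, hx, c, hc, rfl⟩)
  have fin : P ≠ {x | ∀ c ∈ cube {i}, x + c ∈ P} + cube {i} := fun q => by
    rcases hP.2.2 _ _ (k1 (zero_K _)) (zero_cube _) q with h | h
    · have q : ((fun _ => 2, N + (N + 1)) : (Fin N → ℕ) × ℕ) ∈ ({0} : Set _) :=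
        h ▸ k1 (mem_K.2 (Or.inr ⟨_, hN, rfl, Or.inl fun _ => by simp⟩))
      have := congrArg Prod.snd q
      simp at this
    · exact absurd (cube_zero h) (by simp)
  refine fin (Set.Subset.antisymm (fun x hx => ?_) (by
    rintro _ ⟨x, hx, c, hc, rfl⟩
    exact hx c hc))
  rcases cof_max h2 e hx with a | ⟨l, hl, a, rfl⟩
  · exact Set.add_subset_add_right k1 (k0 ▸ a)
  have il : i ∈ seg N l := by
    obtain ⟨j, hj, hj'⟩ := Finset.exists_of_ssubset (a.ssubset_of_ne (hR' l hl))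
    have := hm j (Finset.mem_compl.2 hj')
    simp only [seg, Finset.mem_filter, Finset.mem_univ, true_and] at hj ⊢
    omega
  have q : ex l (R ∪ {i}) + top {i} = ex l R := Prod.ext (funext fun j => by
    by_cases b : j = i
    · simp [ex, top, b, hi']
    · simp [ex, top, b]) (by simp [ex, top])
  refine ⟨ex l (R ∪ {i}), fun c hc => ?_, top {i}, top_cube subset_rfl, q⟩
  by_cases b : c.1 i = 0
  · have : c = 0 := Prod.ext (funext fun j => by
      by_cases d : j = i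
      · exact d ▸ b
      · exact (hc.2 j).2 (by simpa using d)) hc.1
    rw [this, add_zero]
    refine cof_min h2 e (mem_K.2 (Or.inr ⟨l, hl, rfl, Or.inr ⟨i, il, by simp [ex, hi'],
      fun j hj => ?_⟩⟩))
    by_cases d : j ∈ R <;> simp [ex, d, hj]
  · have : c = top {i} := Prod.ext (funext fun j => by
      have := hc.2 j
      by_cases d : j = i
      · subst d
        simp only [top, Finset.mem_singleton, if_true]
        omega
      · simpa [top, d] using this.2 (by simpa using d)) hc.1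
    rwa [this, q]

theorem card_seg {l : ℕ} (h2 : 2 ≤ l) (h3 : l ≤ N + 1) : (seg N l).card + 1 = l := by
  have : seg N l = Finset.univ.filter fun i : Fin N => i.1 < l - 1 := by
    ext i
    simp only [seg, Finset.mem_filter, Finset.mem_univ, true_and]
    omega
  rw [this, Fin.card_filter_val_lt]
  omega

theorem split_off (h2 : ∀ l ∈ L, 2 ≤ l) (h3 : ∀ l ∈ L, l ≤ N + 1) {X : Set ((Fin N → ℕ) × ℕ)}
    {k : ℕ} (h : Ln X k) : X ⊆ Kc L ∅ → (∃ x ∈ X, x.2 ≠ 0) →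
      ∃ P Q m, At P ∧ Ln Q m ∧ k = m + 1 ∧ X = P + Q ∧ ∀ q ∈ Q, q.2 = 0 := by
  induction h with
  | nil =>
    rintro - ⟨x, rfl, hx⟩
    exact absurd rfl hx
  | @cons A X k a x ih =>
    rintro hX ⟨_, ⟨u, hu, v, hv, rfl⟩, h0⟩
    by_cases c : ∃ u ∈ A, u.2 ≠ 0
    · obtain ⟨u, hu, c⟩ := c
      exact ⟨A, X, k, a, x, rfl, rfl, one_flat h3 h2 a.1 x.zero_mem hX hu c⟩
    · have c' : ∀ u ∈ A, u.2 = 0 := fun u hu => by_contra fun d => c ⟨u, hu, d⟩
      obtain ⟨P, Q, m, p, q, rfl, rfl, r⟩ := ih ((sub_right a.1).trans hX)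
        ⟨v, hv, by simpa [c' u hu] using h0⟩
      refine ⟨P, A + Q, m + 1, p, Ln.cons a q, rfl, add_left_comm _ _ _, ?_⟩
      rintro _ ⟨s, hs, t, ht, rfl⟩
      simp [c' s hs, r t ht]

theorem core (h2 : ∀ l ∈ L, 2 ≤ l) (h3 : ∀ l ∈ L, l ≤ N + 1) (hN : N + 1 ∈ L) (k : ℕ) :
    Ln (Kc L (∅ : Finset (Fin N))) k ↔ k ∈ L := by
  constructor
  · intro h
    obtain ⟨P, Q, m, p, q, rfl, e, r⟩ := split_off h2 h3 h subset_rfl
      ⟨(fun _ => 2, N + (N + 1)), mem_K.2 (Or.inr ⟨_, hN, rfl, Or.inl fun _ => by simp⟩), by simp⟩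
    have k0 : ∀ x, x ∈ cube (Finset.univ : Finset (Fin N)) ↔ x ∈ Kc L ∅ ∧ x.2 = 0 := fun x => by
      refine ⟨fun a => ⟨mem_K.2 (Or.inl ⟨a.1, fun i => ⟨(a.2 i).1, by simp⟩⟩), a.1⟩, fun a => ?_⟩
      rcases mem_K.1 a.1 with ⟨u, v⟩ | ⟨l, hl, u, -⟩
      · exact ⟨u, fun i => ⟨(v i).1, by simp⟩⟩
      · have := h2 l hl
        have := a.2
        omega
    have k1 : cube Finset.univ = {x | x ∈ P ∧ x.2 = 0} + Q := by
      ext x
      rw [k0, e]
      constructor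
      · rintro ⟨⟨a, ha, b, hb, rfl⟩, c⟩
        exact ⟨a, ⟨ha, by simpa [r b hb] using c⟩, b, hb, rfl⟩
      · rintro ⟨a, ha, b, hb, rfl⟩
        exact ⟨⟨a, ha.1, b, hb, rfl⟩, by simp [ha.2, r b hb]⟩
    obtain ⟨-, R, -, rfl, -⟩ := cube_split (A := {x | x ∈ P ∧ x.2 = 0}) ⟨p.1, rfl⟩ q.zero_mem k1
    obtain ⟨l, hl, rfl⟩ := not_at h2 hN e.symm p
    rwa [ln_cube_eq q _ rfl, card_seg (h2 l hl) (h3 l hl)]
  · intro h
    rw [← big_add h, ← card_seg (h2 k h) (h3 k h)]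
    convert Ln.cons (at_big h2 h3 h) (ln_cube _) using 1
    rw [card_seg (h2 k h) (h3 k h)]

theorem K_bound (h3 : ∀ l ∈ L, l ≤ N + 1) {x : (Fin N → ℕ) × ℕ}
    (hx : x ∈ Kc L (∅ : Finset (Fin N))) : x.2 ≤ 2 * N + 1 ∧ ∀ i, x.1 i ≤ 3 := by
  rcases mem_K.1 hx with ⟨u, v⟩ | ⟨l, hl, u, v | ⟨j, -, v, w⟩⟩
  · exact ⟨by omega, fun i => (v i).1.trans (by omega)⟩
  · have := h3 l hl
    exact ⟨by omega, fun i => (v i).2.1⟩
  · have := h3 l hl
    refine ⟨by omega, fun i => ?_⟩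
    by_cases q : i = j
    · subst q
      omega
    · have := w i q
      omega

theorem K_finite (h3 : ∀ l ∈ L, l ≤ N + 1) : (Kc L (∅ : Finset (Fin N))).Finite :=
  ((Set.finite_Iic (fun _ : Fin N => 3)).prod (Set.finite_Iic (2 * N + 1))).subset
    fun _ hx => ⟨(K_bound h3 hx).2, (K_bound h3 hx).1⟩

/-- Digits in base seven, scaled by `a`. -/
def dig (N a : ℕ) : ((Fin N → ℕ) × ℕ) →+ ℕ where
  toFun x := a * (∑ i, x.1 i * 7 ^ i.1 + 7 ^ N * x.2)
  map_zero' := by simp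
  map_add' x y := by
    simp only [Prod.fst_add, Prod.snd_add, Pi.add_apply, add_mul, Finset.sum_add_distrib]
    ring

theorem dig_inj {a : ℕ} (ha : a ≠ 0) {x y : (Fin N → ℕ) × ℕ} (hx : ∀ i, x.1 i < 7)
    (hy : ∀ i, y.1 i < 7) (e : dig N a x = dig N a y) : x = y := by
  have e1 : ∑ i, x.1 i * 7 ^ i.1 + 7 ^ N * x.2 = ∑ i, y.1 i * 7 ^ i.1 + 7 ^ N * y.2 :=
    Nat.eq_of_mul_eq_mul_left (Nat.pos_of_ne_zero ha) e
  have a1 := finFunctionFinEquiv_apply (fun i => (⟨x.1 i, hx i⟩ : Fin 7))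
  have a2 := finFunctionFinEquiv_apply (fun i => (⟨y.1 i, hy i⟩ : Fin 7))
  have b1 := (finFunctionFinEquiv fun i => (⟨x.1 i, hx i⟩ : Fin 7)).isLt
  have b2 := (finFunctionFinEquiv fun i => (⟨y.1 i, hy i⟩ : Fin 7)).isLt
  rw [← a1, ← a2] at e1
  have e2 := congrArg (· % 7 ^ N) e1
  simp only [Nat.add_mul_mod_self_left, Nat.mod_eq_of_lt b1, Nat.mod_eq_of_lt b2] at e2
  have e3 := finFunctionFinEquiv.injective (Fin.ext e2)
  rw [e2] at e1
  exact Prod.ext (funext fun i => congrArg Fin.val (congrFun e3 i))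
    (Nat.eq_of_mul_eq_mul_left (by positivity) (Nat.add_left_cancel e1))

theorem exists_set (h2 : ∀ l ∈ L, 2 ≤ l) (hL : L.Nonempty) {a : ℕ} (ha : a ≠ 0) :
    ∃ X : Set ℕ, X.Finite ∧ 0 ∈ X ∧ (∀ x ∈ X, a ∣ x) ∧ ∀ k, Ln X k ↔ k ∈ L := by
  obtain ⟨N, hN⟩ : ∃ N, L.max' hL = N + 1 :=
    ⟨L.max' hL - 1, by have := h2 _ (L.max'_mem hL); omega⟩
  have h3 : ∀ l ∈ L, l ≤ N + 1 := fun l hl => hN ▸ L.le_max' l hl
  refine ⟨dig N a '' Kc L ∅, (K_finite h3).image _, ⟨0, zero_K _, map_zero _⟩, ?_, fun k => ?_⟩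
  · rintro _ ⟨x, -, rfl⟩
    exact Dvd.intro _ rfl
  · rw [ln_img (fun x hx y hy z hz e => dig_inj ha (fun i => ?_) (fun i => ?_) e) (zero_K _),
      core h2 h3 (hN ▸ L.max'_mem hL)]
    · have := (K_bound h3 hx).2 i
      have := (K_bound h3 hy).2 i
      simp only [Prod.fst_add, Pi.add_apply]
      omega
    · have := (K_bound h3 hz).2 i
      omega

theorem at_coe {H : AddSubmonoid ℕ} {A : Finset ℕ} (h : ∀ a ∈ A, a ∈ H) :
    At (A : Set ℕ) ↔ IsAtom H A := by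
  constructor
  · rintro ⟨a0, a1, a2⟩
    refine ⟨a0, h, fun e => a1 (by simp [e]), fun B C b0 _ c0 _ e => ?_⟩
    simpa using a2 B C b0 c0 (by simp [e])
  · rintro ⟨a0, -, a1, a2⟩
    refine ⟨a0, fun e => a1 (by simpa using e), fun B C b0 c0 e => ?_⟩
    have b : B ⊆ A := e ▸ sub_left c0
    have c : C ⊆ A := e ▸ sub_right b0
    lift B to Finset ℕ using A.finite_toSet.subset b
    lift C to Finset ℕ using A.finite_toSet.subset c
    simpa using a2 B C b0 (fun x hx => h x (b hx)) c0 (fun x hx => h x (c hx))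
      (by exact_mod_cast e)

theorem ln_coe {H : AddSubmonoid ℕ} {X : Finset ℕ} (h : ∀ a ∈ X, a ∈ H) (k : ℕ) :
    Ln (X : Set ℕ) k ↔ ∃ s : List (Finset ℕ), (∀ A ∈ s, IsAtom H A) ∧ s.sum = X ∧ s.length = k := by
  constructor
  · have g : ∀ (Z : Set ℕ) (k : ℕ), Ln Z k → ∀ X : Finset ℕ, (∀ a ∈ X, a ∈ H) → ↑X = Z →
        ∃ s : List (Finset ℕ), (∀ A ∈ s, IsAtom H A) ∧ s.sum = X ∧ s.length = k := by
      intro Z k hZ
      induction hZ with
      | nil => exact fun X _ e => ⟨[], by simp, (Finset.coe_eq_singleton.1 e).symm, rfl⟩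
      | @cons A Z k a z ih =>
        intro X h e
        have b : A ⊆ X := e ▸ sub_left z.zero_mem
        have c : Z ⊆ X := e ▸ sub_right a.1
        lift A to Finset ℕ using X.finite_toSet.subset b
        lift Z to Finset ℕ using X.finite_toSet.subset c
        obtain ⟨s, s1, s2, s3⟩ := ih Z (fun x hx => h x (c hx)) rfl
        refine ⟨A :: s, ?_, ?_, by simp [s3]⟩
        · simpa using ⟨(at_coe fun x hx => h x (b hx)).1 a, s1⟩
        · rw [List.sum_cons, s2]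
          exact_mod_cast e.symm
    exact fun x => g _ k x X h rfl
  · rintro ⟨s, s1, rfl, rfl⟩
    clear h
    induction s with
    | nil =>
      rw [List.sum_nil, Finset.coe_zero]
      exact Ln.nil
    | cons A s ih =>
      have a := s1 A (by simp)
      rw [List.sum_cons, Finset.coe_add]
      exact Ln.cons ((at_coe a.2.1).2 a) (ih fun B hB => s1 B (by simp [hB]))

end Pool.Agent.Lib.MP_bba460_co.Len
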