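import Pool.Agent.Lib.MP_bba460_co.Range

/-! Monotonicity of the number of irreducible sets. -/

namespace Pool.Agent.Lib.MP_bba460_co
open Finset Pointwise

theorem rd_small {ε : ℝ} (hε : 0 < ε) (hε1 : ε ≤ 1) : ∃ n0 : ℕ,
    ∀ G : Finset ℕ, 0 ∉ G → n0 ≤ G.card → ∀ t : ℕ, G.card < t ^ 3 →
      (t : ℝ) ≤ (1 - ε) * G.card → G.card * Rd G t ≤ G.card.choose t := by
  obtain ⟨τ, c, hc, h⟩ := rd_exp hε hε1
  have h1 := (isLittleO_pow_exp_pos_mul_atTop (3 * (τ + 2)) hc).bound
    (show (0 : ℝ) < 1 / 5 by norm_num)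
  obtain ⟨x0, hx0⟩ := Filter.eventually_atTop.1 h1
  refine ⟨⌈x0⌉₊ ^ 3 + 2 * τ, fun G hG hn t ht3 ht => ?_⟩
  have ht0 : 0 < t := by
    rcases Nat.eq_zero_or_pos t with rfl | h0
    · simp at ht3
    · exact h0
  have h2 : ⌈x0⌉₊ < t := lt_of_pow_lt_pow_left₀ 3 (Nat.zero_le _) (by omega)
  have h3 : x0 ≤ t := (Nat.le_ceil x0).trans (by exact_mod_cast h2.le)
  have h4 := hx0 t h3
  rw [Real.norm_of_nonneg (by positivity), Real.norm_of_nonneg (by positivity)] at h4
  have h5 := h G hG t ht0 ht (by omega)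
  have h6 : (G.card : ℝ) + 1 ≤ (t : ℝ) ^ 3 := by exact_mod_cast ht3
  have h7 : (G.card : ℝ) * (5 * ((G.card : ℝ) + 1) ^ (τ + 1)) ≤ Real.exp (c * t) := by
    calc (G.card : ℝ) * (5 * ((G.card : ℝ) + 1) ^ (τ + 1))
        ≤ (t : ℝ) ^ 3 * (5 * ((t : ℝ) ^ 3) ^ (τ + 1)) := by
          gcongr
          linarith
      _ = 5 * (t : ℝ) ^ (3 * (τ + 2)) := by ring
      _ ≤ _ := by linarith
  have h8 : (G.card : ℝ) * Rd G t ≤ G.card.choose t := by
    calc (G.card : ℝ) * Rd G t
        ≤ G.card * (5 * ((G.card : ℝ) + 1) ^ (τ + 1) * (G.card.choose t : ℝ) *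
            Real.exp (-(c * t))) := mul_le_mul_of_nonneg_left h5 (by positivity)
      _ = (G.card * (5 * ((G.card : ℝ) + 1) ^ (τ + 1))) * Real.exp (-(c * t)) *
            G.card.choose t := by ring
      _ ≤ Real.exp (c * t) * Real.exp (-(c * t)) * G.card.choose t := by gcongr
      _ = _ := by rw [← Real.exp_add, add_neg_cancel, Real.exp_zero, one_mul]
  exact_mod_cast h8

theorem at_up : ∃ n0 : ℕ, ∀ G : Finset ℕ, 0 ∉ G → n0 ≤ G.card → ∀ t : ℕ,
    2 * (t + 1) ≤ G.card → At G t ≤ At G (t + 1) := by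
  classical
  obtain ⟨n0, h⟩ := rd_small (ε := 1 / 2) (by norm_num) (by norm_num)
  refine ⟨n0, fun G hG hn t ht => ?_⟩
  have e1 := Rd_add_At G t
  have e2 := Rd_add_At G (t + 1)
  have e3 := Nat.choose_succ_right_eq G.card t
  suffices hs : G.card.choose t + Rd G (t + 1) ≤ G.card.choose (t + 1) by omega
  obtain ⟨d, hd⟩ : ∃ d, G.card = t + d := ⟨G.card - t, by omega⟩
  have hd' : G.card - t = d := by omega
  rw [hd'] at e3
  by_cases h3 : G.card < (t + 1) ^ 3
  · have h4 := h G hG hn (t + 1) h3 (by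
      have : (2 * ((t : ℝ) + 1)) ≤ G.card := by exact_mod_cast ht
      push_cast
      linarith)
    have h5 : d * Rd G (t + 1) ≤ G.card * Rd G (t + 1) := Nat.mul_le_mul_right _ (by omega)
    have h6 : G.card.choose (t + 1) * (t + 2) ≤ G.card.choose (t + 1) * d :=
      Nat.mul_le_mul_left _ (by omega)
    refine Nat.le_of_mul_le_mul_right (c := d) ?_ (by omega)
    nlinarith
  · have h4 : Rd G (t + 1) ≤ G.card.choose t * t ^ 2 :=
      case_tiny G t _ fun T hT => ⟨(mem_powersetCard.1 (mem_filter.1 hT).1).1,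
        (mem_powersetCard.1 (mem_filter.1 hT).1).2, (mem_filter.1 hT).2⟩
    have h5 : (1 + t ^ 2) * (t + 1) ≤ d := by
      have : t + (1 + t ^ 2) * (t + 1) ≤ (t + 1) ^ 3 := by nlinarith [Nat.zero_le t]
      omega
    have h6 := Nat.mul_le_mul_left (G.card.choose t) h5
    have h7 := Nat.mul_le_mul_right (t + 1) h4
    refine Nat.le_of_mul_le_mul_right (c := t + 1) ?_ (by omega)
    nlinarith

theorem at_down {ε : ℝ} (hε : 0 < ε) (hε1 : ε ≤ 1) : ∃ n0 : ℕ, ∀ G : Finset ℕ, 0 ∉ G →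
    n0 ≤ G.card → ∀ t : ℕ, G.card ≤ 2 * t → (t : ℝ) ≤ (1 - ε) * G.card →
      At G (t + 1) ≤ At G t := by
  obtain ⟨n0, h⟩ := rd_small hε hε1
  refine ⟨n0 + 5, fun G hG hn t ht ht' => ?_⟩
  have e1 := Rd_add_At G t
  have e2 := Rd_add_At G (t + 1)
  have e3 := Nat.choose_succ_right_eq G.card t
  suffices hs : G.card.choose (t + 1) + Rd G t ≤ G.card.choose t by omega
  have hn0 : (0 : ℝ) < G.card := by
    have : 0 < G.card := by omega
    exact_mod_cast this
  have htn : t < G.card := by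
    have : (t : ℝ) < G.card := by linarith [mul_pos hε hn0]
    exact_mod_cast this
  have h3 : G.card < t ^ 3 := by
    have h4 : 3 ≤ t := by omega
    have h5 : 3 * 3 * t ≤ t * t * t := Nat.mul_le_mul_right _ (Nat.mul_le_mul h4 h4)
    have h6 : t ^ 3 = t * t * t := by ring
    omega
  have h4 := h G hG (by omega) t h3 ht'
  have h5 : (t + 1) * Rd G t ≤ G.card * Rd G t := Nat.mul_le_mul_right _ htn
  have h6 : G.card.choose t * (G.card - t) ≤ G.card.choose t * t :=
    Nat.mul_le_mul_left _ (by omega)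
  refine Nat.le_of_mul_le_mul_right (c := t + 1) ?_ (by omega)
  nlinarith

theorem choose_step (m v i : ℕ) :
    (m + i + 1).choose (v + 1) ≤ m.choose (v + 1) + (i + 1) * (m + i).choose v := by
  induction i with
  | zero =>
    rw [Nat.choose_succ_succ']
    simp only [add_zero, zero_add, one_mul]
    omega
  | succ i ih =>
    have h1 := Nat.choose_succ_succ' (m + (i + 1)) v
    have h2 : (m + i).choose v ≤ (m + (i + 1)).choose v := Nat.choose_le_choose v (by omega)
    have h3 := Nat.mul_le_mul_left (i + 1) h2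
    have e : m + (i + 1) = m + i + 1 := by omega
    rw [h1]
    rw [e] at h3 ⊢
    nlinarith

theorem choose_six {n u : ℕ} (h : 12 * u ≤ n) : n.choose u ≤ 2 * (n - 6).choose u := by
  cases u with
  | zero => simp
  | succ v =>
    obtain ⟨m, rfl⟩ : ∃ m, n = m + 5 + 1 := ⟨n - 6, by omega⟩
    have h1 := choose_step m v 5
    have h2 := Nat.add_one_mul_choose_eq (m + 5) v
    have h3 : 12 * (m + 5).choose v ≤ (m + 5 + 1).choose (v + 1) := by
      refine Nat.le_of_mul_le_mul_right (c := v + 1) ?_ (by omega)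
      have h4 := Nat.mul_le_mul_right ((m + 5).choose v) h
      nlinarith
    rw [show m + 5 + 1 - 6 = m by omega]
    omega

/-- Near full density: one hole in a bounded protected set already forces irreducibility. -/
theorem at_tail {G Z : Finset ℕ} (hZ : Z ⊆ G) (hZ6 : Z.card ≤ 6) {h1 h2 : ℕ} (m1 : h1 ∈ Z)
    (m2 : h2 ∈ Z) (hne : h1 ≠ h2)
    (hirr : ∀ h, h = h1 ∨ h = h2 → ∀ J ⊆ G \ Z, ¬ Red (G \ insert h J)) {t : ℕ}
    (ht : 12 * (G.card - (t + 1)) ≤ G.card) : At G (t + 1) ≤ At G t := by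
  classical
  have e2 := Rd_add_At G (t + 1)
  by_cases htn : G.card < t + 1
  · rw [Nat.choose_eq_zero_of_lt htn] at e2
    omega
  have hsym : G.card.choose (G.card - (t + 1)) = G.card.choose (t + 1) :=
    Nat.choose_symm (by omega)
  have h3 := choose_six ht
  have h4 : (G.card - 6).choose (G.card - (t + 1)) ≤ (G \ Z).card.choose (G.card - (t + 1)) :=
    Nat.choose_le_choose _ (by rw [card_sdiff_of_subset hZ]; omega)
  have hin : ∀ p ∈ ({h1, h2} : Finset ℕ) ×ˢ (G \ Z).powersetCard (G.card - (t + 1)),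
      p.1 ∈ Z ∧ p.2 ⊆ G \ Z ∧ (p.1 = h1 ∨ p.1 = h2) ∧ p.2.card = G.card - (t + 1) := by
    intro p hp
    obtain ⟨hp1, hp2⟩ := mem_product.1 hp
    rw [mem_insert, mem_singleton] at hp1
    refine ⟨?_, (mem_powersetCard.1 hp2).1, hp1, (mem_powersetCard.1 hp2).2⟩
    rcases hp1 with e | e <;> rw [e] <;> assumption
  have hsub : ∀ p : ℕ × Finset ℕ, p.1 ∈ Z → p.2 ⊆ G \ Z → insert p.1 p.2 ⊆ G := fun p a b =>
    insert_subset (hZ a) (b.trans sdiff_subset)
  have h5 : (({h1, h2} : Finset ℕ) ×ˢ (G \ Z).powersetCard (G.card - (t + 1))).card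
      ≤ At G t := by
    refine card_le_card_of_injOn (fun p => G \ insert p.1 p.2) (fun p hp => ?_)
      fun p hp p' hp' e => ?_
    · obtain ⟨a1, a2, a3, a4⟩ := hin p hp
      refine mem_coe.2 (mem_filter.2 ⟨mem_powersetCard.2 ⟨sdiff_subset, ?_⟩, hirr _ a3 _ a2⟩)
      rw [card_sdiff_of_subset (hsub p a1 a2),
        card_insert_of_notMem fun h => (mem_sdiff.1 (a2 h)).2 a1, a4]
      omega
    · obtain ⟨a1, a2, -, -⟩ := hin p hp
      obtain ⟨b1, b2, -, -⟩ := hin p' hp'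
      have e1 : insert p.1 p.2 = insert p'.1 p'.2 := by
        rw [← Finset.sdiff_sdiff_eq_self (hsub p a1 a2),
          ← Finset.sdiff_sdiff_eq_self (hsub p' b1 b2)]
        exact congrArg (G \ ·) e
      have e3 : p.1 = p'.1 := by
        have h6 : p.1 ∈ insert p'.1 p'.2 := e1 ▸ mem_insert_self _ _
        exact (mem_insert.1 h6).resolve_right fun h => (mem_sdiff.1 (b2 h)).2 a1
      refine Prod.ext e3 ?_
      rw [← erase_insert (s := p.2) (a := p.1) fun h => (mem_sdiff.1 (a2 h)).2 a1, e1, e3,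
        erase_insert fun h => (mem_sdiff.1 (b2 h)).2 b1]
  rw [card_product, card_pair hne, card_powersetCard] at h5
  omega

end Pool.Agent.Lib.MP_bba460_co
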