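import Pool.Agent.Lib.MP_bba460_co.Defs
import Pool.Agent.Lib.MP_bba460_co.Mono

/-! From irreducible subsets of `H ∩ [1, l]` to atoms. -/

namespace Pool.Agent.Lib.MP_bba460_co
open Finset Pointwise

open Classical in
/-- The ground set `H ∩ [1, l]`. -/
noncomputable def gr (H : AddSubmonoid ℕ) (l : ℕ) : Finset ℕ := (Icc 1 l).filter (· ∈ H)

theorem mem_gr {H : AddSubmonoid ℕ} {l a : ℕ} : a ∈ gr H l ↔ a ∈ H ∧ 1 ≤ a ∧ a ≤ l := by
  simp only [gr, mem_filter, mem_Icc]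
  tauto

theorem zero_notMem_gr (H : AddSubmonoid ℕ) (l : ℕ) : 0 ∉ gr H l := fun h => by
  have := mem_gr.1 h
  omega

theorem cnt_eq (H : AddSubmonoid ℕ) (l : ℕ) : cnt H l = (gr H l).card := by
  rw [cnt, ← Set.ncard_coe_finset]
  congr 1
  ext a
  simp only [Set.mem_ofPred_eq, mem_coe, mem_gr]

theorem card_gr_le (H : AddSubmonoid ℕ) (l : ℕ) : (gr H l).card ≤ l := by
  classical
  refine (card_filter_le _ _).trans ?_
  simp

theorem alpha_zero (H : AddSubmonoid ℕ) (l : ℕ) : alpha H 0 l = 0 := by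
  have : {A : Finset ℕ | IsAtom H A ∧ A.card = 0 ∧ ∀ a ∈ A, a ≤ l} = ∅ := by
    refine Set.eq_empty_of_forall_notMem fun A ⟨h1, h2, _⟩ => ?_
    rw [card_eq_zero] at h2
    exact notMem_empty 0 (h2 ▸ h1.1)
  rw [alpha, this, Set.ncard_empty]

theorem alpha_one (H : AddSubmonoid ℕ) (l : ℕ) : alpha H 1 l = 0 := by
  have : {A : Finset ℕ | IsAtom H A ∧ A.card = 1 ∧ ∀ a ∈ A, a ≤ l} = ∅ := by
    refine Set.eq_empty_of_forall_notMem fun A ⟨h1, h2, _⟩ => ?_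
    obtain ⟨a, rfl⟩ := card_eq_one.1 h2
    exact h1.2.2.1 (by rw [mem_singleton.1 h1.1])
  rw [alpha, this, Set.ncard_empty]

theorem alpha_succ (H : AddSubmonoid ℕ) (l : ℕ) {t : ℕ} (ht : 1 ≤ t) :
    alpha H (t + 1) l = At (gr H l) t := by
  classical
  have h0 : ∀ T, T ⊆ gr H l → 0 ∉ T := fun T hT h => zero_notMem_gr H l (hT h)
  have e : {A : Finset ℕ | IsAtom H A ∧ A.card = t + 1 ∧ ∀ a ∈ A, a ≤ l}
      = ↑((((gr H l).powersetCard t).filter fun T => ¬ Red T).image (insert 0)) := by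
    ext A
    simp only [Set.mem_ofPred_eq, mem_coe, mem_image, mem_filter, mem_powersetCard]
    constructor
    · rintro ⟨⟨a0, aH, -, hat⟩, hc, hl⟩
      refine ⟨A.erase 0, ⟨⟨fun a ha => ?_, by rw [card_erase_of_mem a0, hc]; rfl⟩, ?_⟩,
        insert_erase a0⟩
      · obtain ⟨h1, h2⟩ := mem_erase.1 ha
        exact mem_gr.2 ⟨aH a h2, by omega, hl a h2⟩
      · rintro ⟨B, C, hB, hC, hB1, hC1, e⟩
        rw [insert_erase a0] at e
        refine (hat B C hB (fun b hb => aH b ?_) hC (fun c hc => aH c ?_) e).elim hB1 hC1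
        · have := add_mem_add hb hC
          rwa [add_zero, ← e] at this
        · have := add_mem_add hB hc
          rwa [zero_add, ← e] at this
    · rintro ⟨T, ⟨⟨hT, hc⟩, hr⟩, rfl⟩
      have hcard : (insert 0 T).card = t + 1 := by rw [card_insert_of_notMem (h0 T hT), hc]
      refine ⟨⟨mem_insert_self _ _, fun a ha => ?_, fun h => ?_, fun B C hB _ hC _ e => ?_⟩,
        hcard, fun a ha => ?_⟩
      · rcases mem_insert.1 ha with rfl | h
        · exact H.zero_mem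
        · exact (mem_gr.1 (hT h)).1
      · rw [h, card_singleton] at hcard
        omega
      · by_contra hn
        rw [not_or] at hn
        exact hr ⟨B, C, hB, hC, hn.1, hn.2, e⟩
      · rcases mem_insert.1 ha with rfl | h
        · exact Nat.zero_le _
        · exact (mem_gr.1 (hT h)).2.2
  rw [alpha, e, Set.ncard_coe_finset, card_image_of_injOn]
  · rfl
  · intro T hT T' hT' h
    have h1 := h0 T (mem_powersetCard.1 (mem_filter.1 hT).1).1
    have h2 := h0 T' (mem_powersetCard.1 (mem_filter.1 hT').1).1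
    rw [← erase_insert h1, h, erase_insert h2]

theorem alpha_up : ∃ n0 : ℕ, ∀ (H : AddSubmonoid ℕ) (l : ℕ), n0 ≤ cnt H l → ∀ k : ℕ,
    2 * k ≤ cnt H l → alpha H k l ≤ alpha H (k + 1) l := by
  obtain ⟨n0, h⟩ := at_up
  refine ⟨n0, fun H l hn k hk => ?_⟩
  rw [cnt_eq] at hn hk
  match k with
  | 0 => rw [alpha_zero]; exact Nat.zero_le _
  | 1 => rw [alpha_one]; exact Nat.zero_le _
  | t + 2 =>
    rw [alpha_succ H l (t := t + 1) (by omega), alpha_succ H l (t := t + 2) (by omega)]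
    exact h _ (zero_notMem_gr H l) hn (t + 1) hk

theorem alpha_down {ε : ℝ} (hε : 0 < ε) : ∃ n0 : ℕ, ∀ (H : AddSubmonoid ℕ) (l : ℕ),
    n0 ≤ cnt H l → ∀ k : ℕ, cnt H l + 2 ≤ 2 * k → (k : ℝ) ≤ (1 - ε) * cnt H l + 1 →
      alpha H (k + 1) l ≤ alpha H k l := by
  obtain ⟨n0, h⟩ := at_down (ε := min ε 1) (lt_min hε one_pos) (min_le_right _ _)
  refine ⟨n0 + 1, fun H l hn k hk hk' => ?_⟩
  rw [cnt_eq] at hn hk hk'
  obtain ⟨t, rfl⟩ : ∃ t, k = t + 1 := ⟨k - 1, by omega⟩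
  rw [alpha_succ H l (t := t + 1) (by omega), alpha_succ H l (t := t) (by omega)]
  refine h _ (zero_notMem_gr H l) (by omega) t (by omega) ?_
  have h1 : (1 - ε) * ((gr H l).card : ℝ) ≤ (1 - min ε 1) * (gr H l).card :=
    mul_le_mul_of_nonneg_right (by linarith [min_le_left ε 1]) (Nat.cast_nonneg _)
  push_cast at hk'
  linarith

section window

variable {H : AddSubmonoid ℕ} {l : ℕ}

theorem split_top {T B C : Finset ℕ} {z : ℕ} (hT : T ⊆ gr H l) (hz : z ∈ T)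
    (hw : ∀ a ∈ H, a ≠ 0 → l < z + a) (hB : 0 ∈ B) (hC : 0 ∈ C) (hB1 : B ≠ {0}) (hC1 : C ≠ {0})
    (e : insert 0 T = B + C) :
    ∃ b ∈ B, ∃ c ∈ C, b ≠ 0 ∧ c ≠ 0 ∧ b + c = z ∧ b ∈ T ∧ c ∈ T := by
  have e' := e.trans (add_comm B C)
  have hz1 := (mem_gr.1 (hT hz)).2.1
  obtain ⟨b, hb, c, hc, hbc⟩ := mem_add.1 (e ▸ mem_insert_of_mem hz)
  have hb0 : b ≠ 0 := by
    rintro rfl
    obtain ⟨b1, hb1, h1⟩ := exists_ne_zero hB hB1
    have h2 := mem_gr.1 (hT (left_sub e hC (mem_erase.2 ⟨h1, hb1⟩)))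
    have h3 := mem_gr.1 (hT (add_mem_of e hb1 hc (by omega)))
    have h4 := hw b1 h2.1 h1
    omega
  have hc0 : c ≠ 0 := by
    rintro rfl
    obtain ⟨c1, hc1, h1⟩ := exists_ne_zero hC hC1
    have h2 := mem_gr.1 (hT (left_sub e' hB (mem_erase.2 ⟨h1, hc1⟩)))
    have h3 := mem_gr.1 (hT (add_mem_of e hb hc1 (by omega)))
    have h4 := hw c1 h2.1 h1
    omega
  exact ⟨b, hb, c, hc, hb0, hc0, hbc, left_sub e hC (mem_erase.2 ⟨hb0, hb⟩),
    left_sub e' hB (mem_erase.2 ⟨hc0, hc⟩)⟩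

/-- A protected set with two alternative holes. -/
def Prot (G : Finset ℕ) : Prop :=
  ∃ (Z : Finset ℕ) (h1 h2 : ℕ), Z ⊆ G ∧ Z.card ≤ 6 ∧ h1 ∈ Z ∧ h2 ∈ Z ∧ h1 ≠ h2 ∧
    ∀ h, h = h1 ∨ h = h2 → ∀ J ⊆ G \ Z, ¬ Red (G \ insert h J)

theorem mem_keep {G Z J : Finset ℕ} (hZ : Z ⊆ G) (hJ : J ⊆ G \ Z) {h x : ℕ} (hx : x ∈ Z)
    (hne : x ≠ h) : x ∈ G \ insert h J :=
  mem_sdiff.2 ⟨hZ hx, fun hm => (mem_insert.1 hm).elim hne fun h1 => (mem_sdiff.1 (hJ h1)).2 hx⟩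

theorem not_mem_hole (G J : Finset ℕ) (h : ℕ) : h ∉ G \ insert h J := fun hm =>
  (mem_sdiff.1 hm).2 (mem_insert_self _ _)

theorem prot_gen {z : ℕ} (hn : 3 ≤ (gr H l).card) (hz : z ∈ gr H l)
    (hw : ∀ a ∈ H, a ≠ 0 → l < z + a)
    (hg : ∀ a ∈ H, ∀ b ∈ H, a ≠ 0 → b ≠ 0 → a + b ≠ z) : Prot (gr H l) := by
  obtain ⟨h1, m1, h2, m2, hne⟩ := one_lt_card.1
    (show 1 < ((gr H l).erase z).card by rw [card_erase_of_mem hz]; omega)
  have hZ : ({z, h1, h2} : Finset ℕ) ⊆ gr H l :=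
    insert_subset hz (insert_subset (mem_of_mem_erase m1)
      (singleton_subset_iff.2 (mem_of_mem_erase m2)))
  refine ⟨{z, h1, h2}, h1, h2, hZ, card_le_three.trans (by norm_num), by simp, by simp, hne,
    fun h hh J hJ ⟨B, C, hB, hC, hB1, hC1, e⟩ => ?_⟩
  have hzh : z ≠ h := by
    rcases hh with rfl | rfl
    exacts [(ne_of_mem_erase m1).symm, (ne_of_mem_erase m2).symm]
  obtain ⟨b, -, c, -, hb0, hc0, hbc, hbT, hcT⟩ := split_top sdiff_subset
    (mem_keep hZ hJ (by simp) hzh) hw hB hC hB1 hC1 e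
  exact hg b (mem_gr.1 (mem_sdiff.1 hbT).1).1 c (mem_gr.1 (mem_sdiff.1 hcT).1).1 hb0 hc0 hbc

theorem prot_pair {z a a' : ℕ} (hz : z ∈ gr H l) (hw : ∀ a ∈ H, a ≠ 0 → l < z + a)
    (ha : a ∈ gr H l) (ha' : a' ∈ gr H l) (hs : a + a' = z) (hne : a ≠ a')
    (hu : ∀ b ∈ H, ∀ c ∈ H, b ≠ 0 → c ≠ 0 → b + c = z → b = a ∨ c = a) : Prot (gr H l) := by
  have hZ : ({z, a, a'} : Finset ℕ) ⊆ gr H l :=
    insert_subset hz (insert_subset ha (singleton_subset_iff.2 ha'))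
  have p1 := (mem_gr.1 ha).2.1
  have p2 := (mem_gr.1 ha').2.1
  refine ⟨{z, a, a'}, a, a', hZ, card_le_three.trans (by norm_num), by simp, by simp, hne,
    fun h hh J hJ ⟨B, C, hB, hC, hB1, hC1, e⟩ => ?_⟩
  obtain ⟨b, -, c, -, hb0, hc0, hbc, hbT, hcT⟩ := split_top sdiff_subset
    (mem_keep hZ hJ (by simp) (by omega)) hw hB hC hB1 hC1 e
  have h1 := hu b (mem_gr.1 (mem_sdiff.1 hbT).1).1 c (mem_gr.1 (mem_sdiff.1 hcT).1).1 hb0 hc0 hbc
  have h2 : b = h ∨ c = h := by omega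
  rcases h2 with rfl | rfl
  · exact not_mem_hole _ _ _ hbT
  · exact not_mem_hole _ _ _ hcT

theorem prot_double {a g : ℕ} (hz : a + a ∈ gr H l) (hw : ∀ b ∈ H, b ≠ 0 → l < a + a + b)
    (ha : a ∈ gr H l) (hg : g ∈ gr H l) (hne : g ≠ a) (hga : g + a ≤ l)
    (hgen : ∀ b ∈ H, ∀ c ∈ H, b ≠ 0 → c ≠ 0 → b + c ≠ g)
    (hu : ∀ b ∈ H, ∀ c ∈ H, b ≠ 0 → c ≠ 0 → b + c = a + a → b = a ∨ c = a) :
    Prot (gr H l) := by
  have p1 := mem_gr.1 ha
  have p2 := mem_gr.1 hg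
  have hZ : ({a + a, a, g, g + a} : Finset ℕ) ⊆ gr H l :=
    insert_subset hz (insert_subset ha (insert_subset hg (singleton_subset_iff.2
      (mem_gr.2 ⟨H.add_mem p2.1 p1.1, by omega, hga⟩))))
  refine ⟨{a + a, a, g, g + a}, a, g + a, hZ, card_le_four.trans (by norm_num), by simp, by simp,
    by omega, fun h hh J hJ ⟨B, C, hB, hC, hB1, hC1, e⟩ => ?_⟩
  obtain ⟨b, hb, c, hc, hb0, hc0, hbc, hbT, hcT⟩ := split_top sdiff_subset
    (mem_keep hZ hJ (x := a + a) (by simp) (by omega)) hw hB hC hB1 hC1 e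
  have h1 := hu b (mem_gr.1 (mem_sdiff.1 hbT).1).1 c (mem_gr.1 (mem_sdiff.1 hcT).1).1 hb0 hc0 hbc
  obtain rfl : b = a := by omega
  obtain rfl : c = b := by omega
  rcases hh with rfl | rfl
  · exact not_mem_hole _ _ _ hbT
  · have hgT := mem_keep hZ hJ (h := g + c) (x := g) (by simp) (by omega)
    obtain ⟨b', hb', c', hc', hs⟩ := mem_add.1 (e ▸ mem_insert_of_mem hgT)
    by_cases z1 : b' = 0
    · have h2 := add_mem_of e hb hc' (by omega)
      rw [show c + c' = g + c by omega] at h2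
      exact not_mem_hole _ _ _ h2
    by_cases z2 : c' = 0
    · have h2 := add_mem_of e hb' hc (by omega)
      rw [show b' + c = g + c by omega] at h2
      exact not_mem_hole _ _ _ h2
    exact hgen b' (mem_gr.1 (mem_sdiff.1 (left_sub e hC (mem_erase.2 ⟨z1, hb'⟩))).1).1 c'
      (mem_gr.1 (mem_sdiff.1 (left_sub (e.trans (add_comm B C)) hB
        (mem_erase.2 ⟨z2, hc'⟩))).1).1 z1 z2 hs

theorem prot_of_window {z a0 : ℕ} (hn : 3 ≤ (gr H l).card) (hz : z ∈ gr H l)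
    (hw : ∀ a ∈ H, a ≠ 0 → l < z + a)
    (hu : ∀ a ∈ H, ∀ b ∈ H, a ≠ 0 → b ≠ 0 → a + b = z → a = a0 ∨ b = a0) : Prot (gr H l) := by
  classical
  have pz := mem_gr.1 hz
  by_cases hg : ∀ a ∈ H, ∀ b ∈ H, a ≠ 0 → b ≠ 0 → a + b ≠ z
  · exact prot_gen hn hz hw hg
  push Not at hg
  obtain ⟨a', ha0, ha', h00, h0', hs⟩ :
      ∃ a', a0 ∈ H ∧ a' ∈ H ∧ a0 ≠ 0 ∧ a' ≠ 0 ∧ a0 + a' = z := by
    obtain ⟨a, ha, b, hb, h1, h2, hs⟩ := hg
    rcases hu a ha b hb h1 h2 hs with rfl | rfl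
    · exact ⟨b, ha, hb, h1, h2, hs⟩
    · exact ⟨a, hb, ha, h2, h1, by omega⟩
  have g0 : a0 ∈ gr H l := mem_gr.2 ⟨ha0, by omega, by omega⟩
  by_cases hne : a0 ≠ a'
  · exact prot_pair hz hw g0 (mem_gr.2 ⟨ha', by omega, by omega⟩) hs hne hu
  push Not at hne
  subst hne
  subst hs
  obtain ⟨m, hm, hmin⟩ := exists_min_image (gr H l) id ⟨a0, g0⟩
  have pm := mem_gr.1 hm
  have hmin' : ∀ b ∈ H, b ≠ 0 → m ≤ b := fun b hb h0 => by
    by_cases hl : b ≤ l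
    · exact hmin b (mem_gr.2 ⟨hb, by omega, hl⟩)
    · omega
  by_cases hma : m ≠ a0
  · have h1 := hmin' a0 ha0 h00
    refine prot_double hz hw g0 hm hma (by omega) (fun b hb c hc b0 c0 e => ?_) hu
    have h2 := hmin' b hb b0
    omega
  push Not at hma
  subst hma
  have h3 := hw m pm.1 (by omega)
  by_cases hx : ∃ x ∈ gr H l, x ≠ m ∧ x + m ≤ l
  · obtain ⟨x, hx, hxm, hxl⟩ := hx
    refine prot_double hz hw g0 hx hxm hxl (fun b hb c hc b0 c0 e => ?_) hu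
    have h1 := hmin' b hb b0
    have h2 := hmin' c hc c0
    omega
  · push Not at hx
    obtain ⟨y, hy, hy'⟩ : ∃ y ∈ gr H l, y ∉ ({m, m + m} : Finset ℕ) :=
      exists_mem_notMem_of_card_lt_card (card_le_two.trans_lt (by omega))
    simp only [mem_insert, mem_singleton, not_or] at hy'
    have py := mem_gr.1 hy
    have h4 := hx y hy hy'.1
    refine prot_gen hn hy (fun a ha h0 => ?_) fun b hb c hc b0 c0 e => ?_
    · have := hmin' a ha h0
      omega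
    · have h1 := hmin' b hb b0
      have h2 := hmin' c hc c0
      have h5 : b = m := by
        by_contra hc'
        have := hx b (mem_gr.2 ⟨hb, by omega, by omega⟩) hc'
        omega
      have h6 : c = m := by
        by_contra hc'
        have := hx c (mem_gr.2 ⟨hc, by omega, by omega⟩) hc'
        omega
      omega

theorem prot_of_lt (hn : 3 ≤ (gr H l).card) (h3 : ∀ a ∈ H, a ≠ 0 → l < 3 * a) :
    Prot (gr H l) := by
  obtain ⟨m, hm, hmin⟩ := exists_min_image (gr H l) id (card_pos.1 (by omega))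
  have pm := mem_gr.1 hm
  have hmin' : ∀ b ∈ H, b ≠ 0 → m ≤ b := fun b hb h0 => by
    by_cases hl : b ≤ l
    · exact hmin b (mem_gr.2 ⟨hb, by omega, hl⟩)
    · omega
  have h4 := h3 m pm.1 (by omega)
  by_cases h2 : m + m ≤ l
  · refine prot_of_window (z := m + m) (a0 := m) hn
      (mem_gr.2 ⟨H.add_mem pm.1 pm.1, by omega, h2⟩) (fun a ha h0 => ?_)
      fun a ha b hb a0 b0 e => ?_
    · have := hmin' a ha h0
      omega
    · have := hmin' a ha a0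
      have := hmin' b hb b0
      omega
  · refine prot_gen hn hm (fun a ha h0 => ?_) fun a ha b hb a0 b0 e => ?_
    · have := hmin' a ha h0
      omega
    · have := hmin' a ha a0
      omega

end window

theorem unimodal_of_prot : ∃ n0 : ℕ, ∀ (H : AddSubmonoid ℕ) (l : ℕ), n0 ≤ cnt H l →
    Prot (gr H l) → ∃ k ≤ l, (∀ i, i < k → alpha H i l ≤ alpha H (i + 1) l) ∧
      ∀ i, k ≤ i → alpha H (i + 1) l ≤ alpha H i l := by
  obtain ⟨n1, hup⟩ := alpha_up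
  obtain ⟨n2, hdown⟩ := alpha_down (ε := 1 / 12) (by norm_num)
  refine ⟨n1 + n2 + 4, fun H l hn ⟨Z, h1, h2, hZ, hZ6, m1, m2, hne, hirr⟩ => ?_⟩
  have hl := card_gr_le H l
  have hc := cnt_eq H l
  have hd : ∀ i, cnt H l / 2 + 2 ≤ i → alpha H (i + 1) l ≤ alpha H i l := by
    intro i hi
    by_cases h12 : 12 * i ≤ 11 * cnt H l
    · refine hdown H l (by omega) i (by omega) ?_
      have : 12 * (i : ℝ) ≤ 11 * cnt H l := by exact_mod_cast h12
      linarith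
    · obtain ⟨t, rfl⟩ : ∃ t, i = t + 1 := ⟨i - 1, by omega⟩
      rw [alpha_succ H l (t := t + 1) (by omega), alpha_succ H l (t := t) (by omega)]
      exact at_tail hZ hZ6 m1 m2 hne hirr (by omega)
  have hu : ∀ i, i ≤ cnt H l / 2 → alpha H i l ≤ alpha H (i + 1) l := fun i hi =>
    hup H l (by omega) i (by omega)
  rcases le_total (alpha H (cnt H l / 2 + 1) l) (alpha H (cnt H l / 2 + 1 + 1) l) with h | h
  · refine ⟨cnt H l / 2 + 2, by omega, fun i hi => ?_, hd⟩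
    by_cases e : i = cnt H l / 2 + 1
    · rw [e]
      exact h
    · exact hu i (by omega)
  · refine ⟨cnt H l / 2 + 1, by omega, fun i hi => hu i (by omega), fun i hi => ?_⟩
    by_cases e : i = cnt H l / 2 + 1
    · rw [e]
      exact h
    · exact hd i (by omega)

end Pool.Agent.Lib.MP_bba460_co
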