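import Pool.Agent.Lib.MP_bba460_co.Count

/-! The share of reducible sets is exponentially small away from full density. -/

namespace Pool.Agent.Lib.MP_bba460_co
open Finset Pointwise

open Classical in
/-- Number of reducible subsets of size `t`. -/
noncomputable def Rd (G : Finset ℕ) (t : ℕ) : ℕ := ((G.powersetCard t).filter Red).card

open Classical in
/-- Number of irreducible subsets of size `t`. -/
noncomputable def At (G : Finset ℕ) (t : ℕ) : ℕ :=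
  ((G.powersetCard t).filter fun T => ¬ Red T).card

theorem Rd_add_At (G : Finset ℕ) (t : ℕ) : Rd G t + At G t = G.card.choose t := by
  classical
  rw [← card_powersetCard]
  exact card_filter_add_card_filter_not _

theorem num_a {ε q x : ℝ} {k t : ℕ} (hε : 0 < ε) (hε1 : ε ≤ 1) (hq0 : 0 < q) (hq : q ≤ 1 - ε)
    (hx : 0 ≤ x) (hk : (k : ℝ) ≤ (ε / 16) ^ 2 * t)
    (h : x * ((ε / 16) ^ 2 * q) ^ (2 * k) ≤ Real.exp (2 * ((ε / 16) ^ 2 * t))) :
    x * q ^ t ≤ Real.exp (-(ε / 2 * t)) := by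
  obtain ⟨η, hη⟩ : ∃ η, η = ε / 16 := ⟨_, rfl⟩
  rw [← hη] at hk h
  have hη0 : 0 < η := by rw [hη]; positivity
  have hη1 : η ≤ 1 / 16 := by rw [hη]; linarith
  have ht0 : (0 : ℝ) ≤ t := Nat.cast_nonneg t
  have hβ : η ^ 2 ≤ η / 16 := by nlinarith
  have hβt : η ^ 2 * t ≤ η / 16 * t := mul_le_mul_of_nonneg_right hβ ht0
  have h2k : 2 * k ≤ t := by
    have : 2 * (k : ℝ) ≤ t := by nlinarith
    exact_mod_cast this
  have h1 : 1 ≤ η * Real.exp (1 / η) := by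
    have := Real.add_one_le_exp (1 / η)
    have h3 : η * (1 / η) = 1 := by field_simp
    nlinarith
  have h2 : 1 ≤ (η ^ 2) ^ (2 * k) * Real.exp (4 * η * t) := by
    have h3 : 1 ≤ (η * Real.exp (1 / η)) ^ (4 * k) := one_le_pow₀ h1
    rw [mul_pow, ← Real.exp_nat_mul] at h3
    refine h3.trans ?_
    rw [← pow_mul, show 2 * (2 * k) = 4 * k by ring]
    refine mul_le_mul_of_nonneg_left (Real.exp_le_exp.2 ?_) (by positivity)
    rw [mul_one_div, div_le_iff₀ hη0]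
    push_cast
    nlinarith
  have h3 : q ^ (t - 2 * k) ≤ Real.exp (-(ε * t) + 2 * (η ^ 2 * t)) := by
    have h4 : q ≤ Real.exp (-ε) := by linarith [Real.add_one_le_exp (-ε)]
    refine (pow_le_pow_left₀ hq0.le h4 _).trans ?_
    rw [← Real.exp_nat_mul, Nat.cast_sub h2k]
    refine Real.exp_le_exp.2 ?_
    push_cast
    have hk0 : (0 : ℝ) ≤ k := Nat.cast_nonneg k
    nlinarith
  have h4 : x * q ^ (2 * k) ≤ Real.exp (2 * (η ^ 2 * t)) * Real.exp (4 * η * t) := by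
    calc x * q ^ (2 * k) ≤ x * q ^ (2 * k) * ((η ^ 2) ^ (2 * k) * Real.exp (4 * η * t)) :=
          le_mul_of_one_le_right (by positivity) h2
      _ = x * (η ^ 2 * q) ^ (2 * k) * Real.exp (4 * η * t) := by rw [mul_pow]; ring
      _ ≤ _ := mul_le_mul_of_nonneg_right h (by positivity)
  calc x * q ^ t = x * q ^ (2 * k) * q ^ (t - 2 * k) := by
        rw [mul_assoc, ← pow_add, Nat.add_sub_cancel' h2k]
    _ ≤ (Real.exp (2 * (η ^ 2 * t)) * Real.exp (4 * η * t)) *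
          Real.exp (-(ε * t) + 2 * (η ^ 2 * t)) :=
        mul_le_mul h4 h3 (by positivity) (by positivity)
    _ ≤ _ := by
        rw [← Real.exp_add, ← Real.exp_add]
        refine Real.exp_le_exp.2 ?_
        have : ε = 16 * η := by rw [hη]; ring
        rw [this]
        nlinarith

theorem num_b {γ q x M s : ℝ} {j τ : ℕ} (hγ : 0 < γ) (hq0 : 0 < q) (hM : 0 ≤ M)
    (hq : q ^ τ ≤ γ * Real.exp (-2)) (hj : s ≤ j)
    (h : x * (γ * q) ^ j ≤ M * (Real.exp s * q ^ (j * (τ + 1)))) : x ≤ M * Real.exp (-s) := by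
  have h1 : q ^ (j * (τ + 1)) ≤ (γ * q) ^ j * Real.exp (-2 * j) := by
    rw [mul_comm j, pow_mul, mul_comm (-2 : ℝ), Real.exp_nat_mul, ← mul_pow]
    refine pow_le_pow_left₀ (by positivity) ?_ _
    rw [pow_succ]
    nlinarith
  have h2 : Real.exp s * Real.exp (-2 * j) ≤ Real.exp (-s) := by
    rw [← Real.exp_add]
    exact Real.exp_le_exp.2 (by linarith)
  have h3 : x * (γ * q) ^ j ≤ M * Real.exp (-s) * (γ * q) ^ j := by
    calc x * (γ * q) ^ j ≤ M * (Real.exp s * ((γ * q) ^ j * Real.exp (-2 * j))) :=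
          h.trans (by gcongr)
      _ = M * (Real.exp s * Real.exp (-2 * j)) * (γ * q) ^ j := by ring
      _ ≤ _ := by gcongr
  exact le_of_mul_le_mul_right h3 (by positivity)

theorem exists_tau {ε β : ℝ} (hε : 0 < ε) (hε1 : ε ≤ 1) (hβ : 0 < β) :
    ∃ τ : ℕ, (1 - ε) ^ τ ≤ β / ((τ : ℝ) + 1) ^ 2 * Real.exp (-2) := by
  have h1 := tendsto_pow_const_mul_const_pow_of_abs_lt_one 2 (r := 1 - ε)
    (by rw [abs_lt]; constructor <;> linarith)
  have h2 := (tendsto_order.1 h1).2 (β * Real.exp (-2) / 4) (by positivity)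
  obtain ⟨τ, hτ, hτ1⟩ := (h2.and (Filter.eventually_ge_atTop 1)).exists
  refine ⟨τ, ?_⟩
  have h3 : (1 : ℝ) ≤ τ := by exact_mod_cast hτ1
  have h4 : 0 ≤ (1 - ε) ^ τ := pow_nonneg (by linarith) _
  rw [div_mul_eq_mul_div, le_div_iff₀ (by positivity)]
  have h5 : ((τ : ℝ) + 1) ^ 2 ≤ 4 * (τ : ℝ) ^ 2 := by nlinarith
  nlinarith

theorem rd_exp {ε : ℝ} (hε : 0 < ε) (hε1 : ε ≤ 1) : ∃ (τ : ℕ) (c : ℝ), 0 < c ∧
    ∀ G : Finset ℕ, 0 ∉ G → ∀ t : ℕ, 0 < t → (t : ℝ) ≤ (1 - ε) * G.card → 2 * τ ≤ G.card →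
      (Rd G t : ℝ) ≤ 5 * ((G.card : ℝ) + 1) ^ (τ + 1) * (G.card.choose t : ℝ) *
        Real.exp (-(c * t)) := by
  classical
  obtain ⟨β, hβ⟩ : ∃ β, β = (ε / 16) ^ 2 := ⟨_, rfl⟩
  have hβ0 : 0 < β := by rw [hβ]; positivity
  have hβ1 : β ≤ 1 := by rw [hβ]; nlinarith
  obtain ⟨τ0, hτ0⟩ := exists_tau hε hε1 hβ0
  obtain ⟨γ, hγ⟩ : ∃ γ, γ = β / ((τ0 : ℝ) + 1) ^ 2 := ⟨_, rfl⟩
  rw [← hγ] at hτ0
  have hτ1 : (1 : ℝ) ≤ ((τ0 : ℝ) + 1) ^ 2 :=
    one_le_pow₀ (by linarith [Nat.cast_nonneg (α := ℝ) τ0])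
  have hγ0 : 0 < γ := by rw [hγ]; positivity
  have hγ1 : γ ≤ 1 := by rw [hγ, div_le_one (by positivity)]; linarith
  obtain ⟨κ, hκ⟩ : ∃ κ, κ = ε ^ (τ0 + 1) / (2 * ((τ0 : ℝ) + 2) ^ 2) := ⟨_, rfl⟩
  have hκ0 : 0 < κ := by rw [hκ]; positivity
  refine ⟨τ0 + 1, min (ε / 2) (min γ κ), lt_min (by linarith) (lt_min hγ0 hκ0),
    fun G hG t ht0 ht hτn => ?_⟩
  obtain ⟨c, hc⟩ : ∃ c, c = min (ε / 2) (min γ κ) := ⟨_, rfl⟩
  rw [← hc]
  have hc1 : c ≤ ε / 2 := hc ▸ min_le_left _ _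
  have hc2 : c ≤ γ := hc ▸ (min_le_right _ _).trans (min_le_left _ _)
  have hc3 : c ≤ κ := hc ▸ (min_le_right _ _).trans (min_le_right _ _)
  have ht0' : (0 : ℝ) < t := by exact_mod_cast ht0
  have hn0 : (0 : ℝ) < G.card := by
    have : 0 < G.card := by omega
    exact_mod_cast this
  have htn' : (t : ℝ) < G.card := by linarith [mul_pos hε hn0]
  have htn : t < G.card := by exact_mod_cast htn'
  obtain ⟨w, hw⟩ : ∃ w : ℝ, w = t / ((G.card : ℝ) - t) := ⟨_, rfl⟩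
  have hnt : (0 : ℝ) < (G.card : ℝ) - t := by linarith
  have hw1 : w * ((G.card : ℝ) - t) = t := by rw [hw]; field_simp
  have hw0 : 0 < w := by rw [hw]; positivity
  obtain ⟨q, hq⟩ : ∃ q : ℝ, q = w / (1 + w) := ⟨_, rfl⟩
  have hq0 : 0 < q := by rw [hq]; positivity
  have hqw : q * (1 + w) = w := by rw [hq]; field_simp
  have hqn : q * G.card = t := by
    rw [hq, div_mul_eq_mul_div, div_eq_iff (by positivity)]
    linarith
  have hq1 : q ≤ 1 - ε := by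
    have : q * G.card ≤ (1 - ε) * G.card := by rw [hqn]; exact ht
    exact le_of_mul_le_mul_right this hn0
  have hexp : ∀ s : ℝ, c ≤ s → Real.exp (-(s * t)) ≤ Real.exp (-(c * t)) := fun s hs =>
    Real.exp_le_exp.2 (neg_le_neg (mul_le_mul_of_nonneg_right hs ht0'.le))
  have hM : (1 : ℝ) ≤ ((G.card : ℝ) + 1) ^ (τ0 + 1) := one_le_pow₀ (by linarith)
  set 𝓕 := (G.powersetCard t).filter Red with h𝓕
  set k := ⌊β * t⌋₊ with hk
  set j := ⌈γ * t⌉₊ with hj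
  set Fa := 𝓕.filter fun T => ∃ B C : Finset ℕ, 0 ∈ B ∧ 0 ∈ C ∧ insert 0 T = B + C ∧
      (B.erase 0).card ≤ k ∧ (C.erase 0).card ≤ k with hFa
  set Fb := 𝓕.filter fun T => ∃ B C : Finset ℕ, 0 ∈ B ∧ 0 ∈ C ∧ insert 0 T = B + C ∧
      τ0 + 1 ≤ C.card ∧ (τ0 + 1) ^ 2 * (j - 1) < (B.erase 0).card with hFb
  set Fc := 𝓕.filter fun T => ∃ B C : Finset ℕ, 0 ∈ B ∧ 0 ∈ C ∧ C ≠ {0} ∧
      insert 0 T = B + C ∧ C.card ≤ τ0 + 1 with hFc
  have hmem : ∀ T ∈ 𝓕, T ⊆ G ∧ T.card = t := fun T hT => mem_powersetCard.1 (mem_filter.1 hT).1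
  have hjk : ∀ m : ℕ, k < m → (τ0 + 1) ^ 2 * (j - 1) < m := by
    intro m hm
    have h1 : β * t < m := (Nat.floor_lt (by positivity)).1 hm
    have hj1 : 1 ≤ j := Nat.one_le_iff_ne_zero.2 (Nat.ceil_pos.2 (by positivity)).ne'
    have h2 : (j : ℝ) < γ * t + 1 := Nat.ceil_lt_add_one (by positivity)
    have h3 : ((τ0 : ℝ) + 1) ^ 2 * γ = β := by rw [hγ]; field_simp
    have h4 : (((τ0 + 1) ^ 2 * (j - 1) : ℕ) : ℝ) < m := by
      push_cast [Nat.cast_sub hj1]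
      have h5 : ((τ0 : ℝ) + 1) ^ 2 * ((j : ℝ) - 1) ≤ ((τ0 : ℝ) + 1) ^ 2 * (γ * t) :=
        mul_le_mul_of_nonneg_left (by linarith) (by positivity)
      rw [← mul_assoc, h3] at h5
      linarith
    exact_mod_cast h4
  have hcov : 𝓕 ⊆ Fa ∪ Fb ∪ Fc := by
    intro T hT
    obtain ⟨B, C, hB, hC, hB1, hC1, e⟩ := (mem_filter.1 hT).2
    have e' := e.trans (add_comm B C)
    by_cases c1 : C.card ≤ τ0 + 1
    · exact mem_union_right _ (mem_filter.2 ⟨hT, B, C, hB, hC, hC1, e, c1⟩)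
    by_cases c2 : B.card ≤ τ0 + 1
    · exact mem_union_right _ (mem_filter.2 ⟨hT, C, B, hC, hB, hB1, e', c2⟩)
    refine mem_union_left _ ?_
    by_cases c3 : k < (B.erase 0).card
    · exact mem_union_right _ (mem_filter.2 ⟨hT, B, C, hB, hC, e, by omega, hjk _ c3⟩)
    by_cases c4 : k < (C.erase 0).card
    · exact mem_union_right _ (mem_filter.2 ⟨hT, C, B, hC, hB, e', by omega, hjk _ c4⟩)
    exact mem_union_left _ (mem_filter.2 ⟨hT, B, C, hB, hC, e, by omega, by omega⟩)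
  have ha : (Fa.card : ℝ) * w ^ t ≤ (1 + w) ^ G.card *
      (((G.card : ℝ) + 1) ^ (τ0 + 1) * Real.exp (-(c * t))) := by
    have h1 := case_a G hG k (y := β * q) (by positivity)
      (mul_le_one₀ hβ1 hq0.le (by linarith)) Fa
      fun T hT => ⟨(hmem T (mem_filter.1 hT).1).1, (mem_filter.1 hT).2⟩
    rw [mul_assoc β, hqn, hβ] at h1
    have h2 := num_a hε hε1 hq0 hq1 (Nat.cast_nonneg _)
      (hβ ▸ Nat.floor_le (by positivity : 0 ≤ β * t)) h1
    have h3 : (1 + w) ^ t ≤ (1 + w) ^ G.card := pow_le_pow_right₀ (by linarith) htn.le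
    calc (Fa.card : ℝ) * w ^ t = (1 + w) ^ t * (Fa.card * q ^ t) := by
          conv_lhs => rw [← hqw, mul_pow]
          ring
      _ ≤ (1 + w) ^ G.card * Real.exp (-(c * t)) :=
          mul_le_mul h3 (h2.trans (hexp _ hc1)) (by positivity) (by positivity)
      _ ≤ _ := mul_le_mul_of_nonneg_left (le_mul_of_one_le_left (by positivity) hM)
          (by positivity)
  have hb : (Fb.card : ℝ) * w ^ t ≤ (1 + w) ^ G.card *
      (((G.card : ℝ) + 1) ^ (τ0 + 1) * Real.exp (-(c * t))) := by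
    have h1 := case_b G t (τ0 + 1) j (by omega) (y := γ * q) hw0.le (by positivity)
      (mul_le_one₀ hγ1 hq0.le (by linarith)) Fb fun T hT => ⟨(hmem T (mem_filter.1 hT).1).1,
        (hmem T (mem_filter.1 hT).1).2, (mem_filter.1 hT).2⟩
    rw [← hq, mul_assoc γ, hqn] at h1
    have h2 := num_b (x := (Fb.card : ℝ) * w ^ t)
      (M := (1 + w) ^ G.card * ((G.card : ℝ) + 1) ^ (τ0 + 1)) hγ0 hq0 (by positivity)
      ((pow_le_pow_left₀ hq0.le hq1 τ0).trans hτ0) (Nat.le_ceil (γ * t))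
      (h1.trans (le_of_eq (by ring)))
    refine h2.trans ?_
    rw [mul_assoc]
    gcongr
  have hcc : (Fc.card : ℝ) * w ^ t ≤ (1 + w) ^ G.card *
      (3 * ((G.card : ℝ) + 1) ^ (τ0 + 1) * Real.exp (-(c * t))) := by
    have h1 := case_c G hG t (τ0 + 1) hw0.le Fc fun T hT => ⟨(hmem T (mem_filter.1 hT).1).1,
        (hmem T (mem_filter.1 hT).1).2, (mem_filter.1 hT).2⟩
    refine h1.trans (mul_le_mul_of_nonneg_left (mul_le_mul_of_nonneg_left
      (le_trans (Real.exp_le_exp.2 (neg_le_neg ?_)) (hexp _ hc3)) (by positivity))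
      (by positivity))
    have h2 : ε * (1 + w) ≤ 1 := by
      have h7 : ε * (1 + w) ≤ (1 - q) * (1 + w) :=
        mul_le_mul_of_nonneg_right (by linarith) (by positivity)
      rw [sub_mul, hqw] at h7
      linarith
    have h3 : q * ε ^ (τ0 + 1) ≤ w / (1 + w) ^ (τ0 + 1 + 1) := by
      rw [le_div_iff₀ (by positivity)]
      have h4 : (ε * (1 + w)) ^ (τ0 + 1) ≤ 1 := pow_le_one₀ (by positivity) h2
      calc q * ε ^ (τ0 + 1) * (1 + w) ^ (τ0 + 1 + 1)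
          = (q * (1 + w)) * (ε * (1 + w)) ^ (τ0 + 1) := by rw [mul_pow]; ring
        _ ≤ w * 1 := by rw [hqw]; exact mul_le_mul_of_nonneg_left h4 hw0.le
        _ = w := mul_one w
    have h5 : (2 * ((τ0 : ℝ) + 1)) ≤ G.card := by exact_mod_cast hτn
    have h6 : (G.card : ℝ) / (2 * ((τ0 : ℝ) + 2) ^ 2)
        ≤ ((G.card : ℝ) - ((τ0 + 1 : ℕ) : ℝ)) / ((((τ0 + 1 : ℕ) : ℝ)) + 1) ^ 2 := by
      push_cast
      rw [show (τ0 : ℝ) + 1 + 1 = τ0 + 2 by ring, ← div_div]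
      exact div_le_div_of_nonneg_right (by linarith) (by positivity)
    calc κ * t = q * ε ^ (τ0 + 1) * ((G.card : ℝ) / (2 * ((τ0 : ℝ) + 2) ^ 2)) := by
          rw [hκ, ← hqn]
          ring
      _ ≤ _ := mul_le_mul h3 h6 (by positivity) (by positivity)
  have hcard : (𝓕.card : ℝ) ≤ Fa.card + Fb.card + Fc.card := by
    have h1 := (card_le_card hcov).trans ((card_union_le _ _).trans
      (Nat.add_le_add_right (card_union_le _ _) _))
    exact_mod_cast h1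
  have hall : (𝓕.card : ℝ) * w ^ t ≤ (1 + w) ^ G.card *
      (5 * ((G.card : ℝ) + 1) ^ (τ0 + 1) * Real.exp (-(c * t))) := by
    have h1 := mul_le_mul_of_nonneg_right hcard (pow_pos hw0 t).le
    linarith
  have hfin := transfer ht0 htn hw1 (by positivity) hall
  refine le_trans (le_of_eq ?_) (hfin.trans (le_of_eq (by ring)))
  rfl

end Pool.Agent.Lib.MP_bba460_co
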