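import Mathlib

set_option autoImplicit false

namespace Pool.Agent.Lib.MP_bba460_co.Rig

open Pointwise

/-- The finite subsets of `H` that contain zero. -/
def PM (H : AddSubmonoid ℕ) : AddSubmonoid (Finset ℕ) where
  carrier := {X | 0 ∈ X ∧ ∀ x ∈ X, x ∈ H}
  zero_mem' := ⟨Finset.zero_mem_zero, fun x hx => Finset.mem_zero.1 hx ▸ H.zero_mem⟩
  add_mem' := fun {X Y} a b => ⟨Finset.mem_add.2 ⟨0, a.1, 0, b.1, rfl⟩, fun x hx => by
    obtain ⟨u, hu, v, hv, rfl⟩ := Finset.mem_add.1 hx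
    exact H.add_mem (a.2 u hu) (b.2 v hv)⟩

variable {H : AddSubmonoid ℕ}

theorem mem_add {A B : PM H} {x : ℕ} : x ∈ (A + B).1 ↔ ∃ a ∈ A.1, ∃ b ∈ B.1, a + b = x :=
  Finset.mem_add

theorem add_mem {A B : PM H} {a b : ℕ} (ha : a ∈ A.1) (hb : b ∈ B.1) : a + b ∈ (A + B).1 :=
  mem_add.2 ⟨a, ha, b, hb, rfl⟩

theorem ext {A B : PM H} (h : ∀ x, x ∈ A.1 ↔ x ∈ B.1) : A = B := Subtype.ext (Finset.ext h)

/-- The largest element. -/
def mx (A : PM H) : ℕ := A.1.max' ⟨0, A.2.1⟩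

theorem mx_mem (A : PM H) : mx A ∈ A.1 := Finset.max'_mem _ _

theorem le_mx {A : PM H} {x : ℕ} (h : x ∈ A.1) : x ≤ mx A := Finset.le_max' _ _ h

theorem mx_eq {A : PM H} {m : ℕ} (h : m ∈ A.1) (h' : ∀ x ∈ A.1, x ≤ m) : mx A = m :=
  le_antisymm (h' _ (mx_mem A)) (le_mx h)

theorem mx_add (A B : PM H) : mx (A + B) = mx A + mx B :=
  mx_eq (add_mem (mx_mem A) (mx_mem B)) fun x hx => by
    obtain ⟨a, ha, b, hb, rfl⟩ := mem_add.1 hx
    exact add_le_add (le_mx ha) (le_mx hb)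

theorem mx_zero : mx (0 : PM H) = 0 := Finset.mem_zero.1 (mx_mem (0 : PM H))

theorem mx_nsmul (A : PM H) (n : ℕ) : mx (n • A) = n * mx A := by
  induction n with
  | zero => simpa using mx_zero
  | succ n ih => rw [succ_nsmul, mx_add, ih, Nat.succ_mul]

/-- The set with elements zero and `a`. -/
def two (a : ℕ) (ha : a ∈ H) : PM H := ⟨{0, a}, by simp, by simpa using ha⟩

theorem mem_two {a x : ℕ} {ha : a ∈ H} : x ∈ (two a ha).1 ↔ x = 0 ∨ x = a := by simp [two]

theorem mx_two {a : ℕ} (ha : a ∈ H) : mx (two a ha) = a :=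
  mx_eq (mem_two.2 (Or.inr rfl)) fun x hx => by rcases mem_two.1 hx with h | h <;> omega

theorem mul_mem {A : PM H} {a : ℕ} (ha : a ∈ A.1) {i n : ℕ} (h : i ≤ n) : i * a ∈ (n • A).1 := by
  induction n generalizing i with
  | zero =>
    obtain rfl : i = 0 := by omega
    simp
  | succ n ih =>
    rw [succ_nsmul]
    rcases i with _ | i
    · simpa using (n • A + A).2.1
    · rw [Nat.succ_mul]
      exact add_mem (ih (by omega)) ha

theorem split_insert (S : Finset ℕ) (a : ℕ) (n : ℕ) : ∀ x ∈ n • insert a S,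
    ∃ i j, i + j = n ∧ ∃ s ∈ j • S, x = i * a + s := by
  induction n with
  | zero => exact fun x hx => ⟨0, 0, rfl, x, by simpa using hx, by simp⟩
  | succ n ih =>
    intro x hx
    rw [succ_nsmul] at hx
    obtain ⟨u, hu, v, hv, rfl⟩ := Finset.mem_add.1 hx
    obtain ⟨i, j, rfl, s, hs, rfl⟩ := ih u hu
    rcases Finset.mem_insert.1 hv with rfl | hv
    · exact ⟨i + 1, j, by omega, s, hs, by ring⟩
    · exact ⟨i, j + 1, by omega, s + v, by
        rw [succ_nsmul]
        exact Finset.add_mem_add hs hv, by ring⟩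

theorem absorb_aux (A : PM H) (S : Finset ℕ) : S ⊆ A.1 → ∀ k, S.card * (mx A + 1) ≤ k →
    ∀ x ∈ (k + 1) • S, x ∈ (k • A + two (mx A) (A.2.2 _ (mx_mem A))).1 := by
  induction S using Finset.induction_on with
  | empty =>
    intro _ k _ x hx
    simp [succ_nsmul] at hx
  | insert a S ha ih =>
    intro hS k hk x hx
    rw [Finset.card_insert_of_notMem ha, Nat.succ_mul] at hk
    obtain ⟨i, j, e, s, hs, rfl⟩ := split_insert S a _ x hx
    have a1 : a ∈ A.1 := hS (Finset.mem_insert_self _ _)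
    have S1 : S ⊆ A.1 := (Finset.subset_insert _ _).trans hS
    by_cases c : mx A + 1 ≤ i
    · obtain ⟨r, rfl⟩ := Nat.exists_eq_add_of_le c
      have s1 : s ∈ (j • A).1 := Finset.nsmul_subset_nsmul_left S1 hs
      obtain rfl : k = mx A + (r + j) := by omega
      rw [add_nsmul, add_nsmul]
      rcases a with _ | a
      · simpa using add_mem (add_mem (mx A • A).2.1 (add_mem (r • A).2.1 s1))
          (mem_two.2 (Or.inl rfl))
      · have a2 := le_mx a1
        obtain ⟨m, hm⟩ : ∃ m, mx A = m + 1 := ⟨mx A - 1, by omega⟩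
        have h1 : a * mx A + (a + 1) ∈ (mx A • A).1 := by
          have h2 := add_mem (mul_mem (mx_mem A) (by omega : a ≤ m)) a1
          rwa [← succ_nsmul, ← hm] at h2
        convert add_mem (add_mem h1 (add_mem (mul_mem a1 (le_refl r)) s1))
          (mem_two.2 (Or.inr rfl)) using 1
        ring
    · obtain ⟨j, rfl⟩ : ∃ j', j = j' + 1 := ⟨j - 1, by omega⟩
      obtain rfl : k = i + j := by omega
      rw [add_nsmul, add_assoc]
      exact add_mem (mul_mem a1 le_rfl) (ih S1 j (by omega) s hs)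

theorem absorb (A : PM H) : ∃ k : ℕ, k • A + A = k • A + two (mx A) (A.2.2 _ (mx_mem A)) :=
  ⟨_, ext fun x => ⟨fun hx => absorb_aux A A.1 subset_rfl _ le_rfl x (by
    rw [← succ_nsmul] at hx
    exact hx), fun hx => by
      obtain ⟨a, ha, b, hb, rfl⟩ := mem_add.1 hx
      refine add_mem ha ?_
      rcases mem_two.1 hb with rfl | rfl
      exacts [A.2.1, mx_mem A]⟩⟩

theorem dvd_of_mem {a : ℕ} (ha : a ∈ H) (n : ℕ) : ∀ x ∈ (n • two a ha).1, a ∣ x := by
  induction n with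
  | zero => exact fun x hx => Finset.mem_zero.1 hx ▸ dvd_zero a
  | succ n ih =>
    intro x hx
    rw [succ_nsmul] at hx
    obtain ⟨u, hu, v, hv, rfl⟩ := mem_add.1 hx
    rcases mem_two.1 hv with rfl | rfl
    exacts [ih u hu, (ih u hu).add dvd_rfl]

theorem map_two (f : PM H ≃+ PM H) {a : ℕ} (ha : a ∈ H) :
    f (two a ha) = two (mx (f (two a ha))) ((f (two a ha)).2.2 _ (mx_mem _)) := by
  obtain ⟨k, hk⟩ := absorb (f (two a ha))
  generalize two (mx (f (two a ha))) _ = B at hk ⊢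
  obtain ⟨B, rfl⟩ := f.surjective B
  rw [← map_nsmul, ← map_add, ← map_add, f.apply_eq_iff_eq] at hk
  have h1 := congrArg mx hk
  rw [mx_add, mx_add, mx_two] at h1
  congr 1
  refine ext fun x => ⟨fun hx => ?_, fun hx => ?_⟩
  · rcases mem_two.1 hx with rfl | rfl
    · exact B.2.1
    · exact (by omega : mx B = x) ▸ mx_mem B
  · have h2 := add_mem (k • two a ha).2.1 hx
    rw [← hk, ← succ_nsmul, zero_add] at h2
    have h3 := le_mx hx
    rcases Nat.eq_zero_or_pos x with h4 | h4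
    · exact mem_two.2 (Or.inl h4)
    · have := Nat.le_of_dvd h4 (dvd_of_mem ha _ x h2)
      exact mem_two.2 (Or.inr (by omega))

theorem mx_congr (f : PM H ≃+ PM H) {A B : PM H} (h : mx A = mx B) : mx (f A) = mx (f B) := by
  have g : ∀ A : PM H, mx (f A) = mx (f (two (mx A) (A.2.2 _ (mx_mem A)))) := fun A => by
    obtain ⟨k, hk⟩ := absorb A
    have := congrArg (fun X => mx (f X)) hk
    simp only [map_add, mx_add] at this
    omega
  rw [g A, g B]
  simp only [h]

theorem mx_scale {c : ℕ} (hc : ∀ n, c ≤ n → n ∈ H) (f : PM H ≃+ PM H) :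
    ∃ r, ∀ A, mx (f A) = r * mx A := by
  have g : ∀ A B : PM H, mx A * mx (f B) = mx B * mx (f A) := fun A B => by
    have := mx_congr f (A := mx A • B) (B := mx B • A) (by rw [mx_nsmul, mx_nsmul, mul_comm])
    rwa [map_nsmul, map_nsmul, mx_nsmul, mx_nsmul] at this
  have h1 := g (two (c + 1) (hc _ (by omega))) (two (c + 1 + 1) (hc _ (by omega)))
  rw [mx_two, mx_two] at h1
  obtain ⟨r, hr⟩ : c + 1 ∣ mx (f (two (c + 1) (hc _ (by omega)))) :=
    (Nat.coprime_self_add_right.2 (Nat.coprime_one_right _)).dvd_of_dvd_mul_left ⟨_, h1.symm⟩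
  refine ⟨r, fun A => Nat.eq_of_mul_eq_mul_left (Nat.succ_pos c) ?_⟩
  have := g (two (c + 1) (hc _ (by omega))) A
  rw [mx_two, hr] at this
  rw [Nat.succ_eq_add_one, this]
  ring

theorem mx_map {c : ℕ} (hc : ∀ n, c ≤ n → n ∈ H) (f : PM H ≃+ PM H) (A : PM H) :
    mx (f A) = mx A := by
  obtain ⟨r, hr⟩ := mx_scale hc f
  obtain ⟨s, hs⟩ := mx_scale hc f.symm
  have h1 := hs (f (two (c + 1) (hc _ (by omega))))
  rw [f.symm_apply_apply, hr, mx_two, ← mul_assoc] at h1
  have h2 : s * r = 1 := Nat.eq_of_mul_eq_mul_right (Nat.succ_pos c) (by simpa using h1.symm)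
  rw [hr, Nat.eq_one_of_mul_eq_one_left h2, one_mul]

theorem fix_two {c : ℕ} (hc : ∀ n, c ≤ n → n ∈ H) (f : PM H ≃+ PM H) {a : ℕ} (ha : a ∈ H) :
    f (two a ha) = two a ha := by
  rw [map_two]
  simp only [mx_map hc, mx_two]

end Pool.Agent.Lib.MP_bba460_co.Rig
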