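import Pool.Agent.Lib.MP_bba460_co.RigA

set_option autoImplicit false

namespace Pool.Agent.Lib.MP_bba460_co.Rig

open Pointwise

variable {H : AddSubmonoid ℕ} {c : ℕ}

/-- The predecessor of the largest element belongs to the set. -/
def Pr (A : PM H) : Prop := ∃ x ∈ A.1, x + 1 = mx A

theorem npr_add {A B : PM H} (a : ¬ Pr A) (b : ¬ Pr B) : ¬ Pr (A + B) := by
  rintro ⟨x, hx, e⟩
  obtain ⟨u, hu, v, hv, rfl⟩ := mem_add.1 hx
  rw [mx_add] at e
  have := le_mx hu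
  have := le_mx hv
  have : u + 1 ≠ mx A := fun q => a ⟨u, hu, q⟩
  have : v + 1 ≠ mx B := fun q => b ⟨v, hv, q⟩
  omega

theorem npr_nsmul {A : PM H} (a : ¬ Pr A) (n : ℕ) : ¬ Pr (n • A) := by
  induction n with
  | zero =>
    rintro ⟨x, -, e⟩
    rw [zero_nsmul, mx_zero] at e
    omega
  | succ n ih => exact succ_nsmul A n ▸ npr_add ih a

theorem npr_two (h1 : 1 ∉ H) {a : ℕ} (ha : a ∈ H) : ¬ Pr (two a ha) := by
  rintro ⟨x, hx, e⟩
  rw [mx_two] at e
  rcases mem_two.1 hx with rfl | rfl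
  · exact h1 ((by omega : a = 1) ▸ ha)
  · omega

theorem top_nsmul {A : PM H} (a : Pr A) (B : PM H) {n t : ℕ} (h : t ≤ n) :
    ∃ x ∈ (n • A + B).1, x + t = mx (n • A + B) := by
  obtain ⟨x, hx, e⟩ := a
  obtain ⟨r, rfl⟩ := Nat.exists_eq_add_of_le h
  refine ⟨_, add_mem (a := t * x + r * mx A) ?_ (mx_mem B), ?_⟩
  · rw [add_nsmul]
    exact add_mem (mul_mem hx le_rfl) (mul_mem (mx_mem A) le_rfl)
  · rw [mx_add, mx_nsmul, ← e]
    ring

theorem absorb_two {K : PM H} {y u : ℕ} {hy : y ∈ H} {hu : u ∈ H} (u0 : 0 < u)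
    (h : two y hy + two u hu + K = two (y + u) (H.add_mem hy hu) + K) :
    y ∈ K.1 ∧ ∃ k ∈ K.1, k + y = mx K := by
  constructor
  · have h1 := add_mem (add_mem (mem_two (ha := hy).2 (Or.inr rfl)) (two u hu).2.1) K.2.1
    rw [h] at h1
    obtain ⟨a, ha, b, hb, e⟩ := mem_add.1 h1
    rcases mem_two.1 ha with rfl | rfl
    · exact (by omega : b = y) ▸ hb
    · omega
  · have h1 := add_mem (add_mem (two y hy).2.1 (mem_two (ha := hu).2 (Or.inr rfl))) (mx_mem K)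
    rw [h] at h1
    obtain ⟨a, ha, b, hb, e⟩ := mem_add.1 h1
    have := le_mx hb
    rcases mem_two.1 ha with rfl | rfl
    · omega
    · exact ⟨b, hb, by omega⟩

open Classical in
/-- Zero and the elements of `H` in `(a, M]`. -/
noncomputable def TT (H : AddSubmonoid ℕ) (a M : ℕ) : PM H :=
  ⟨(Finset.range (M + 1)).filter fun x => x ∈ H ∧ (x = 0 ∨ a < x),
    by simp, fun _ hx => (Finset.mem_filter.1 hx).2.1⟩

theorem mem_TT {a M x : ℕ} : x ∈ (TT H a M).1 ↔ x ≤ M ∧ x ∈ H ∧ (x = 0 ∨ a < x) := by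
  simp [TT]

open Classical in
/-- The elements of `H` up to `M` other than `M - 1`. -/
noncomputable def EE (H : AddSubmonoid ℕ) (M : ℕ) : PM H :=
  ⟨(Finset.range (M + 1)).filter fun x => x ∈ H ∧ (x = 0 ∨ x + 1 ≠ M),
    by simp, fun _ hx => (Finset.mem_filter.1 hx).2.1⟩

theorem mem_EE {M x : ℕ} : x ∈ (EE H M).1 ↔ x ≤ M ∧ x ∈ H ∧ (x = 0 ∨ x + 1 ≠ M) := by
  simp [EE]

theorem mx_TT (hc : ∀ n, c ≤ n → n ∈ H) {a M : ℕ} (h : c + a + 1 ≤ M) : mx (TT H a M) = M :=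
  mx_eq (mem_TT.2 ⟨le_rfl, hc _ (by omega), by omega⟩) fun _ hx => (mem_TT.1 hx).1

theorem mx_EE (hc : ∀ n, c ≤ n → n ∈ H) {M : ℕ} (h : c ≤ M) : mx (EE H M) = M :=
  mx_eq (mem_EE.2 ⟨le_rfl, hc _ h, by omega⟩) fun _ hx => (mem_EE.1 hx).1

theorem npr_EE (hc : ∀ n, c ≤ n → n ∈ H) {M : ℕ} (h : c + 2 ≤ M) : ¬ Pr (EE H M) := by
  rintro ⟨x, hx, e⟩
  rw [mx_EE hc (by omega)] at e
  have := mem_EE.1 hx
  omega

theorem add_EE (hc : ∀ n, c ≤ n → n ∈ H) {Y : PM H} (hY : ¬ Pr Y) {M : ℕ}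
    (h : c + mx Y + 2 ≤ M) : Y + EE H M = EE H (M + mx Y) := by
  refine ext fun x => ⟨fun hx => mem_EE.2 ⟨?_, (Y + EE H M).2.2 x hx, Or.inr fun e => ?_⟩,
    fun hx => ?_⟩
  · have := le_mx hx
    rw [mx_add, mx_EE hc (by omega)] at this
    omega
  · exact npr_add hY (npr_EE hc (by omega)) ⟨x, hx, by rw [mx_add, mx_EE hc (by omega)]; omega⟩
  · obtain ⟨a, b, d⟩ := mem_EE.1 hx
    by_cases q : x + 1 < M
    · exact mem_add.2 ⟨0, Y.2.1, x, mem_EE.2 ⟨by omega, b, by omega⟩, zero_add x⟩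
    · exact mem_add.2 ⟨mx Y, mx_mem Y, x - mx Y,
        mem_EE.2 ⟨by omega, hc _ (by omega), by omega⟩, by omega⟩

theorem mem_add_TT (hc : ∀ n, c ≤ n → n ∈ H) {Y : PM H} {a M : ℕ} (h : c + a + 1 + mx Y ≤ M)
    {x : ℕ} : x ∈ (Y + TT H a M).1 ↔
      (x ∈ Y.1 ∧ x ≤ a) ∨ (x ∈ H ∧ a < x ∧ x ≤ M + mx Y) := by
  constructor
  · intro hx
    have h1 := (Y + TT H a M).2.2 x hx
    obtain ⟨u, hu, v, hv, rfl⟩ := mem_add.1 hx
    have := le_mx hu
    have := mem_TT.1 hv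
    by_cases q : u + v ≤ a
    · obtain rfl : v = 0 := by omega
      exact Or.inl ⟨hu, q⟩
    · exact Or.inr ⟨h1, by omega, by omega⟩
  · rintro (⟨h1, -⟩ | ⟨h1, h2, h3⟩)
    · exact add_mem h1 (TT H a M).2.1
    · by_cases q : x ≤ M
      · exact mem_add.2 ⟨0, Y.2.1, x, mem_TT.2 ⟨q, h1, Or.inr h2⟩, zero_add x⟩
      · exact mem_add.2 ⟨mx Y, mx_mem Y, x - mx Y,
          mem_TT.2 ⟨by omega, hc _ (by omega), by omega⟩, by omega⟩

theorem add_TT (hc : ∀ n, c ≤ n → n ∈ H) {Y : PM H} {a M : ℕ} (hY : ∀ y ∈ Y.1, y = 0 ∨ a < y)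
    (h : c + a + 1 + mx Y ≤ M) : Y + TT H a M = TT H a (M + mx Y) :=
  ext fun x => by
    rw [mem_add_TT hc h, mem_TT]
    constructor
    · rintro (⟨h1, h2⟩ | ⟨h1, h2, h3⟩)
      · have := hY x h1
        exact ⟨by omega, Y.2.2 x h1, this⟩
      · exact ⟨h3, h1, Or.inr h2⟩
    · rintro ⟨h1, h2, rfl | h3⟩
      · exact Or.inl ⟨Y.2.1, Nat.zero_le _⟩
      · exact Or.inr ⟨h2, h3, h1⟩

theorem pr_map (hc : ∀ n, c ≤ n → n ∈ H) (h1 : 1 ∉ H) (f : PM H ≃+ PM H) {A : PM H}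
    (hA : Pr A) : Pr (f A) := by
  by_contra hn
  have c2 : 0 < c := Nat.pos_of_ne_zero fun e => h1 (hc 1 (by omega))
  have hY := npr_nsmul hn c
  rw [← map_nsmul] at hY
  obtain ⟨M, hM⟩ : ∃ M, M = 4 * c + 4 + mx (f (c • A)) := ⟨_, rfl⟩
  obtain ⟨N, hN⟩ : ∃ N, N = M + mx (f (c • A)) := ⟨_, rfl⟩
  have e1 : c • A + f.symm (EE H M) = f.symm (EE H N) := by
    rw [hN, ← add_EE hc hY (by omega), map_add, f.symm_apply_apply]
  have m1 : mx (f.symm (EE H N)) = N := by rw [mx_map hc, mx_EE hc (by omega)]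
  have k1 : ∀ y, y ∈ H → y + 2 * c + 2 ≤ N →
      y ∈ (f.symm (EE H N)).1 ∧ ∃ k ∈ (f.symm (EE H N)).1, k + y = N := fun y hy h => by
    have cc := hc c le_rfl
    have := absorb_two (K := f.symm (EE H N)) (hy := hy) (hu := cc) c2 (by
      apply f.injective
      simp only [map_add, fix_two hc, f.apply_symm_apply]
      rw [add_EE hc (npr_add (npr_two h1 _) (npr_two h1 _)) (by
        rw [mx_add, mx_two, mx_two]; omega), add_EE hc (npr_two h1 _) (by rw [mx_two]; omega),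
        mx_add, mx_two, mx_two, mx_two])
    rwa [m1] at this
  have e2 : f.symm (EE H N) = TT H 0 N := ext fun x => by
    rw [mem_TT]
    refine ⟨fun hx => ⟨m1 ▸ le_mx hx, (f.symm (EE H N)).2.2 x hx, by omega⟩, fun ⟨a, b, _⟩ => ?_⟩
    by_cases q : x + 2 * c + 2 ≤ N
    · exact (k1 x b q).1
    by_cases r : N - x ≤ c
    · obtain ⟨z, hz, e⟩ := top_nsmul hA (f.symm (EE H M)) r
      rw [e1] at hz e
      exact (by omega : z = x) ▸ hz
    · obtain ⟨z, hz, e⟩ := (k1 (N - x) (hc _ (by omega)) (by omega)).2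
      exact (by omega : z = x) ▸ hz
  have cc := hc (c + 1) (by omega)
  have m2 : mx (TT H 0 (c + 1)) = c + 1 := mx_TT hc (by omega)
  have e3 : f.symm (TT H 0 (c + 1)) + TT H 0 N = two (c + 1) cc + TT H 0 N := by
    rw [add_TT hc (fun _ _ => by omega) (by rw [mx_map hc, m2]; omega),
      add_TT hc (fun _ _ => by omega) (by rw [mx_two]; omega), mx_map hc, m2, mx_two]
  rw [← e2, ← fix_two hc f.symm cc, ← map_add, ← map_add, f.symm.apply_eq_iff_eq] at e3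
  refine npr_add (npr_two h1 cc) (npr_EE hc (M := N) (by omega)) (e3 ▸ ⟨c + N, ?_, ?_⟩)
  · exact add_mem (mem_TT.2 ⟨by omega, hc _ le_rfl, by omega⟩)
      (mem_EE.2 ⟨le_rfl, hc _ (by omega), by omega⟩)
  · rw [mx_add, m2, mx_EE hc (by omega)]
    omega

theorem upper (hc : ∀ n, c ≤ n → n ∈ H) (h1 : 1 ∉ H) (f : PM H ≃+ PM H) (a : ℕ) :
    ∃ N0, ∀ N, N0 ≤ N → ∀ x, 2 * (c + a + 1) ≤ x → x ≤ N → x ∈ (f (TT H a N)).1 := by
  obtain ⟨d, hd⟩ : ∃ d, d = c + a + 1 := ⟨_, rfl⟩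
  let X : PM H := ⟨{0, d, d + 1}, by simp, by
    simpa using ⟨hc _ (by omega), hc _ (by omega)⟩⟩
  have x1 : ∀ x ∈ X.1, x = 0 ∨ x = d ∨ x = d + 1 := fun x hx => by simpa [X] using hx
  have x2 : Pr X := ⟨d, by simp [X], (mx_eq (by simp [X]) fun x hx => by
    have := x1 x hx
    omega).symm⟩
  have x3 : ∀ n : ℕ, ∀ y ∈ (n • X).1, y = 0 ∨ a < y := fun n => by
    induction n with
    | zero => exact fun y hy => Or.inl (Finset.mem_zero.1 hy)
    | succ n ih =>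
      intro y hy
      rw [succ_nsmul] at hy
      obtain ⟨u, hu, v, hv, rfl⟩ := mem_add.1 hy
      have := ih u hu
      have := x1 v hv
      omega
  refine ⟨2 * mx (d • X) + d, fun N hN x hx hx' => ?_⟩
  have m1 : mx (f (TT H a N)) = N := by rw [mx_map hc, mx_TT hc (by omega)]
  by_cases r : N - x ≤ d
  · obtain ⟨M, rfl⟩ : ∃ M, N = M + mx (d • X) := ⟨N - mx (d • X), by omega⟩
    obtain ⟨z, hz, e⟩ := top_nsmul (pr_map hc h1 f x2) (f (TT H a M)) r
    rw [← map_nsmul, ← map_add, add_TT hc (x3 d) (by omega)] at hz e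
    exact (by omega : z = x) ▸ hz
  · have hy := hc (N - x) (by omega)
    have hu := hc d (by omega)
    have t1 : ∀ {y : ℕ} (hy : y ∈ H), a < y → ∀ z ∈ (two y hy).1, z = 0 ∨ a < z :=
      fun hy h z hz => by
        have := mem_two.1 hz
        omega
    obtain ⟨z, hz, e⟩ := (absorb_two (K := f (TT H a N)) (hy := hy) (hu := hu) (by omega) (by
      rw [← fix_two hc f hy, ← fix_two hc f hu, ← fix_two hc f (H.add_mem hy hu), ← map_add,
        ← map_add, ← map_add, add_assoc, add_TT hc (t1 hu (by omega)) (by rw [mx_two]; omega),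
        add_TT hc (t1 hy (by omega)) (by rw [mx_two, mx_two]; omega),
        add_TT hc (t1 _ (by omega)) (by rw [mx_two]; omega), mx_two, mx_two, mx_two]
      congr 2
      omega)).2
    exact (by omega : z = x) ▸ hz

theorem lower (hc : ∀ n, c ≤ n → n ∈ H) (h1 : 1 ∉ H) (f : PM H ≃+ PM H) {a M0 : ℕ}
    (h0 : 2 * (c + a + 1) ≤ M0) {b : ℕ} (hb : b ∈ (f (TT H a M0)).1) : b = 0 ∨ a < b := by
  by_contra hn
  obtain ⟨N0, hN⟩ := upper hc h1 f a
  obtain ⟨d, hd⟩ : ∃ d, d = c + a + 1 := ⟨_, rfl⟩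
  obtain ⟨M, hM⟩ : ∃ M, M = N0 + M0 + 4 * d := ⟨_, rfl⟩
  have t1 : ∀ y N (h : d ≤ y), d + y ≤ N →
      two y (hc y (by omega)) + f (TT H a N) = f (TT H a (N + y)) := fun y N h h' => by
    rw [← fix_two hc f, ← map_add, add_TT hc (fun z hz => by
      have := mem_two.1 hz
      omega) (by rw [mx_two]; omega), mx_two]
  have t2 : ∀ y N x (h : d ≤ y), d + y ≤ N → x < y →
      (x ∈ (f (TT H a (N + y))).1 ↔ x ∈ (f (TT H a N)).1) := fun y N x h h' hx => by
    rw [← t1 y N h h', mem_add]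
    refine ⟨?_, fun q => ⟨0, (two y _).2.1, x, q, zero_add x⟩⟩
    rintro ⟨u, hu, v, hv, rfl⟩
    rcases mem_two.1 hu with rfl | rfl
    · simpa using hv
    · omega
  have t3 : ∀ x ∈ (f (TT H a M)).1, x + b < M0 → x + b ∈ (f (TT H a M)).1 := fun x hx h => by
    rw [← t2 M0 M _ (by omega) (by omega) h]
    have := add_mem hb hx
    rwa [← map_add, add_TT hc (fun z hz => (mem_TT.1 hz).2.2) (by
      rw [mx_TT hc (by omega)]; omega), mx_TT hc (by omega), add_comm b] at this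
  have t4 : ∀ x, x < 2 * d → (x ∈ (f (TT H a M)).1 ↔ x ∈ (f (TT H a (M + b))).1) := fun x h => by
    rw [← t2 (2 * d + b) M x (by omega) (by omega) (by omega),
      ← t2 (2 * d) (M + b) x (by omega) (by omega) h,
      show M + (2 * d + b) = M + b + 2 * d by omega]
  have m1 : ∀ N, d ≤ N → ∀ x ∈ (f (TT H a N)).1, x ≤ N := fun N h x hx => by
    have := le_mx hx
    rwa [mx_map hc, mx_TT hc (by omega)] at this
  have bH := (f (TT H a M0)).2.2 b hb
  have e : two b bH + f (TT H a M) = f (TT H a (M + b)) := ext fun x => by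
    constructor
    · intro hx
      obtain ⟨u, hu, v, hv, rfl⟩ := mem_add.1 hx
      have := m1 M (by omega) v hv
      have := mem_two.1 hu
      by_cases q : u + v < 2 * d
      · rw [← t4 _ q]
        rcases this with rfl | rfl
        · simpa using hv
        · exact add_comm v u ▸ t3 v hv (by omega)
      · exact hN _ (by omega) _ (by omega) (by omega)
    · intro hx
      have := m1 (M + b) (by omega) x hx
      by_cases q : x ≤ M
      · refine mem_add.2 ⟨0, (two b bH).2.1, x, ?_, zero_add x⟩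
        by_cases r : x < 2 * d
        · exact (t4 x r).2 hx
        · exact hN _ (by omega) _ (by omega) q
      · exact mem_add.2 ⟨b, mem_two.2 (Or.inr rfl), x - b,
          hN _ (by omega) _ (by omega) (by omega), by omega⟩
  rw [← fix_two hc f, ← map_add, f.apply_eq_iff_eq] at e
  have h2 := add_mem (mem_two (ha := bH).2 (Or.inr rfl)) (TT H a M).2.1
  rw [e] at h2
  exact hn (mem_TT.1 h2).2.2

theorem sub_map (hc : ∀ n, c ≤ n → n ∈ H) (h1 : 1 ∉ H) (f : PM H ≃+ PM H) (X : PM H) {a : ℕ}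
    (ha : a ∈ X.1) : a ∈ (f X).1 := by
  have aH := X.2.2 a ha
  obtain ⟨M, hM⟩ : ∃ M, M = 2 * (c + a + 1) + mx X + a := ⟨_, rfl⟩
  have e : X + two a aH + TT H a M = X + TT H a (M + a) := ext fun x => by
    rw [mem_add_TT hc (by rw [mx_add, mx_two]; omega), mem_add_TT hc (by omega), mx_add, mx_two,
      show M + (mx X + a) = M + a + mx X by omega]
    refine or_congr_left (and_congr_left fun h => ⟨fun hx => ?_, fun hx => ?_⟩)
    · obtain ⟨u, hu, v, hv, rfl⟩ := mem_add.1 hx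
      rcases mem_two.1 hv with rfl | rfl
      · exact hu
      · exact (by omega : v = u + v) ▸ ha
    · exact add_mem hx (two a aH).2.1
  have h2 := add_mem (add_mem (f X).2.1 (mem_two (ha := aH).2 (Or.inr rfl))) (f (TT H a M)).2.1
  rw [← fix_two hc f, ← map_add, ← map_add, e, map_add] at h2
  obtain ⟨u, hu, v, hv, q⟩ := mem_add.1 h2
  have := lower hc h1 f (by omega) hv
  exact (by omega : u = a) ▸ hu

theorem rigid (hc : ∀ n, c ≤ n → n ∈ H) (h1 : 1 ∉ H) (f : PM H ≃+ PM H) (X : PM H) : f X = X :=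
  ext fun _ => ⟨fun h => by simpa using sub_map hc h1 f.symm (f X) h, sub_map hc h1 f X⟩

end Pool.Agent.Lib.MP_bba460_co.Rig
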