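import Mathlib

/-! Weighted counting of subsets of a finite set. -/

namespace Pool.Agent.Lib.MP_bba460_co
open Finset

theorem sum_pow_card (G : Finset ℕ) (w : ℝ) :
    ∑ T ∈ G.powerset, w ^ T.card = (1 + w) ^ G.card := by
  have h := Finset.prod_one_add (s := G) (f := fun _ => w)
  simp only [prod_const] at h
  rw [h]

/-- Sums over subsets of a disjoint union factor. -/
theorem sum_powerset_union (P Q : Finset ℕ) (hPQ : Disjoint P Q) (f g : Finset ℕ → ℝ) :
    ∑ T ∈ (P ∪ Q).powerset, f (T ∩ P) * g (T ∩ Q)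
      = (∑ U ∈ P.powerset, f U) * ∑ V ∈ Q.powerset, g V := by
  rw [sum_mul_sum, ← sum_product']
  symm
  refine sum_nbij' (fun p => p.1 ∪ p.2) (fun T => (T ∩ P, T ∩ Q)) ?_ ?_ ?_ ?_ ?_
  · intro p hp
    simp only [mem_product, mem_powerset] at hp ⊢
    exact union_subset_union hp.1 hp.2
  · intro T _
    simp only [mem_product, mem_powerset]
    exact ⟨inter_subset_right, inter_subset_right⟩
  · intro p hp
    simp only [mem_product, mem_powerset] at hp
    have h1 : (p.1 ∪ p.2) ∩ P = p.1 := by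
      ext a
      simp only [mem_inter, mem_union]
      constructor
      · rintro ⟨h | h, h'⟩
        · exact h
        · exact absurd (hp.2 h) (disjoint_left.1 hPQ h')
      · intro h
        exact ⟨Or.inl h, hp.1 h⟩
    have h2 : (p.1 ∪ p.2) ∩ Q = p.2 := by
      ext a
      simp only [mem_inter, mem_union]
      constructor
      · rintro ⟨h | h, h'⟩
        · exact absurd h' (disjoint_left.1 hPQ (hp.1 h))
        · exact h
      · intro h
        exact ⟨Or.inr h, hp.2 h⟩
    simp only [h1, h2]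
  · intro T hT
    simp only [mem_powerset] at hT
    show T ∩ P ∪ T ∩ Q = T
    rw [← inter_union_distrib_left]
    exact inter_eq_left.2 hT
  · intro p hp
    simp only [mem_product, mem_powerset] at hp
    have h1 : (p.1 ∪ p.2) ∩ P = p.1 := by
      ext a
      simp only [mem_inter, mem_union]
      constructor
      · rintro ⟨h | h, h'⟩
        · exact h
        · exact absurd (hp.2 h) (disjoint_left.1 hPQ h')
      · intro h
        exact ⟨Or.inl h, hp.1 h⟩
    have h2 : (p.1 ∪ p.2) ∩ Q = p.2 := by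
      ext a
      simp only [mem_inter, mem_union]
      constructor
      · rintro ⟨h | h, h'⟩
        · exact absurd h' (disjoint_left.1 hPQ (hp.1 h))
        · exact h
      · intro h
        exact ⟨Or.inr h, hp.2 h⟩
    simp only [h1, h2]

theorem card_inter_add (P Q T : Finset ℕ) (hPQ : Disjoint P Q) (hT : T ⊆ P ∪ Q) :
    (T ∩ P).card + (T ∩ Q).card = T.card := by
  rw [← card_union_of_disjoint (disjoint_of_subset_left inter_subset_right
    (disjoint_of_subset_right inter_subset_right hPQ)), ← inter_union_distrib_left,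
    inter_eq_left.2 hT]

/-- Weighted count of the subsets containing `F`. -/
theorem sum_contain (G F : Finset ℕ) (hF : F ⊆ G) (w : ℝ) :
    ∑ T ∈ G.powerset.filter (fun T => F ⊆ T), w ^ T.card
      = w ^ F.card * (1 + w) ^ (G.card - F.card) := by
  classical
  have hd : Disjoint F (G \ F) := disjoint_sdiff
  have hu : F ∪ (G \ F) = G := union_sdiff_of_subset hF
  have h := sum_powerset_union F (G \ F) hd (fun U => if U = F then w ^ U.card else 0)
    (fun V => w ^ V.card)
  rw [hu, sum_pow_card, card_sdiff_of_subset hF] at h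
  rw [sum_ite_eq' , if_pos (mem_powerset.2 subset_rfl)] at h
  rw [← h, sum_filter]
  refine sum_congr rfl fun T hT => ?_
  have hT' : T ⊆ F ∪ (G \ F) := by rw [hu]; exact mem_powerset.1 hT
  by_cases hFT : F ⊆ T
  · have : T ∩ F = F := inter_eq_right.2 hFT
    rw [if_pos hFT, if_pos this, ← pow_add, card_inter_add F (G \ F) T hd hT']
  · have : ¬ T ∩ F = F := fun h => hFT (inter_eq_right.1 h)
    rw [if_neg hFT, if_neg this, zero_mul]

/-- Weighted count of the subsets with no isolated block. -/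
theorem sum_blocks (N : ℕ → Finset ℕ) (r : ℕ) (w : ℝ) (hw : 0 ≤ w) (X : Finset ℕ) :
    ∀ G : Finset ℕ, (∀ x ∈ X, x ∈ N x ∧ N x ⊆ G ∧ (N x).card ≤ r) →
      (∀ x ∈ X, ∀ y ∈ X, x ≠ y → Disjoint (N x) (N y)) →
      ∑ T ∈ G.powerset.filter (fun T => ∀ x ∈ X, T ∩ N x ≠ {x}), w ^ T.card
        ≤ (1 + w) ^ G.card * (1 - w / (1 + w) ^ r) ^ X.card := by
  classical
  induction X using Finset.induction_on with
  | empty =>
    intro G _ _
    simp [sum_pow_card]
  | insert a X ha ih =>
    intro G h1 h2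
    obtain ⟨haN, hNG, hNr⟩ := h1 a (mem_insert_self _ _)
    have hd : Disjoint (N a) (G \ N a) := disjoint_sdiff
    have hu : N a ∪ (G \ N a) = G := union_sdiff_of_subset hNG
    have hsub : ∀ x ∈ X, N x ⊆ G \ N a := by
      intro x hx y hy
      have hne : x ≠ a := fun h => ha (h ▸ hx)
      exact mem_sdiff.2 ⟨(h1 x (mem_insert_of_mem hx)).2.1 hy,
        disjoint_left.1 (h2 x (mem_insert_of_mem hx) a (mem_insert_self _ _) hne) hy⟩
    have ih' := ih (G \ N a) (fun x hx => ⟨(h1 x (mem_insert_of_mem hx)).1, hsub x hx,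
      (h1 x (mem_insert_of_mem hx)).2.2⟩)
      (fun x hx y hy hxy => h2 x (mem_insert_of_mem hx) y (mem_insert_of_mem hy) hxy)
    have h := sum_powerset_union (N a) (G \ N a) hd
      (fun U => if U ≠ {a} then w ^ U.card else 0)
      (fun V => if ∀ x ∈ X, V ∩ N x ≠ {x} then w ^ V.card else 0)
    rw [hu, ← sum_filter, ← sum_filter] at h
    have hL : ∑ T ∈ G.powerset.filter (fun T => ∀ x ∈ insert a X, T ∩ N x ≠ {x}), w ^ T.card
        = ∑ T ∈ G.powerset, (if T ∩ N a ≠ {a} then w ^ (T ∩ N a).card else 0) *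
          (if ∀ x ∈ X, T ∩ (G \ N a) ∩ N x ≠ {x} then w ^ (T ∩ (G \ N a)).card else 0) := by
      rw [sum_filter]
      refine sum_congr rfl fun T hT => ?_
      have hT' : T ⊆ N a ∪ (G \ N a) := by rw [hu]; exact mem_powerset.1 hT
      have hin : ∀ x ∈ X, T ∩ (G \ N a) ∩ N x = T ∩ N x := by
        intro x hx
        rw [inter_assoc, inter_eq_right.2 (hsub x hx)]
      have hiff : (∀ x ∈ X, T ∩ (G \ N a) ∩ N x ≠ {x}) ↔ ∀ x ∈ X, T ∩ N x ≠ {x} := by
        refine forall₂_congr fun x hx => ?_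
        rw [hin x hx]
      simp only [forall_mem_insert, hiff]
      by_cases hA : T ∩ N a ≠ {a}
      · by_cases hB : ∀ x ∈ X, T ∩ N x ≠ {x}
        · rw [if_pos ⟨hA, hB⟩, if_pos hA, if_pos hB, ← pow_add, card_inter_add _ _ T hd hT']
        · rw [if_neg (fun h => hB h.2), if_neg hB, mul_zero]
      · rw [if_neg (fun h => hA h.1), if_neg hA, zero_mul]
    rw [hL, h]
    have hblock : ∑ U ∈ (N a).powerset.filter (fun U => U ≠ {a}), w ^ U.card
        = (1 + w) ^ (N a).card - w := by
      rw [← sum_pow_card, filter_ne' , ← sum_erase_add _ _ (a := {a})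
        (mem_powerset.2 (singleton_subset_iff.2 haN))]
      simp
    have hw1 : (1 : ℝ) ≤ 1 + w := by linarith
    have hpos : (0 : ℝ) < (1 + w) ^ r := by positivity
    have hle : (1 + w) ^ (N a).card - w ≤ (1 + w) ^ (N a).card * (1 - w / (1 + w) ^ r) := by
      have h3 : (1 + w) ^ (N a).card ≤ (1 + w) ^ r := pow_le_pow_right₀ hw1 hNr
      have h4 : (1 + w) ^ (N a).card * (w / (1 + w) ^ r) ≤ w := by
        rw [mul_div_assoc', div_le_iff₀ hpos]
        nlinarith
      linarith
    have hr1 : 1 ≤ r := le_trans (card_pos.2 ⟨a, haN⟩) hNr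
    have hθ : 0 ≤ 1 - w / (1 + w) ^ r := by
      have h5 : 1 + w ≤ (1 + w) ^ r := le_self_pow₀ hw1 (by omega)
      rw [sub_nonneg, div_le_one hpos]
      linarith
    rw [hblock, card_insert_of_notMem ha]
    have hcard : G.card = (N a).card + (G \ N a).card := by
      rw [← card_union_of_disjoint hd, hu]
    have hnn : 0 ≤ ∑ V ∈ (G \ N a).powerset.filter (fun V => ∀ x ∈ X, V ∩ N x ≠ {x}),
        w ^ V.card := sum_nonneg fun V _ => by positivity
    calc ((1 + w) ^ (N a).card - w) * _
        ≤ ((1 + w) ^ (N a).card * (1 - w / (1 + w) ^ r)) *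
            ((1 + w) ^ (G \ N a).card * (1 - w / (1 + w) ^ r) ^ X.card) :=
          mul_le_mul hle ih' hnn (by positivity)
      _ = _ := by rw [hcard, pow_add, pow_succ]; ring

/-- Few subsets are small. -/
theorem card_small_le (X : Finset ℕ) (k : ℕ) (y : ℝ) (hy : 0 < y) (hy1 : y ≤ 1) :
    ((X.powerset.filter (fun B => B.card ≤ k)).card : ℝ) * y ^ k ≤ Real.exp (y * X.card) := by
  have h1 : ((X.powerset.filter (fun B => B.card ≤ k)).card : ℝ) * y ^ k
      ≤ ∑ B ∈ X.powerset.filter (fun B => B.card ≤ k), y ^ B.card := by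
    rw [← nsmul_eq_mul]
    refine card_nsmul_le_sum _ _ _ fun B hB => ?_
    exact pow_le_pow_of_le_one hy.le hy1 (mem_filter.1 hB).2
  have h2 : ∑ B ∈ X.powerset.filter (fun B => B.card ≤ k), y ^ B.card
      ≤ ∑ B ∈ X.powerset, y ^ B.card :=
    sum_le_sum_of_subset_of_nonneg (filter_subset _ _) fun B _ _ => by positivity
  rw [sum_pow_card] at h2
  have h3 : (1 + y) ^ X.card ≤ Real.exp (y * X.card) := by
    rw [mul_comm, Real.exp_nat_mul]
    exact pow_le_pow_left₀ (by linarith) (by linarith [Real.add_one_le_exp y]) _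
  linarith

/-- The term of index `t` carries a share at least `1/(n+1)` of the binomial sum. -/
theorem mode_bound (n t : ℕ) (ht : t < n) (w : ℝ) (hw : w * ((n : ℝ) - t) = t) :
    (1 + w) ^ n ≤ ((n : ℝ) + 1) * ((n.choose t : ℝ) * w ^ t) := by
  have hnt : (0 : ℝ) < (n : ℝ) - t := by
    have : (t : ℝ) < n := by exact_mod_cast ht
    linarith
  have hw0 : 0 ≤ w := by
    by_contra hc
    push Not at hc
    have : (0 : ℝ) ≤ t := Nat.cast_nonneg t
    nlinarith
  have hstep : ∀ i : ℕ, i < n →
      (n.choose (i + 1) : ℝ) * ((i : ℝ) + 1) = (n.choose i : ℝ) * ((n : ℝ) - i) := by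
    intro i hi
    have h := Nat.choose_succ_right_eq n i
    have h' : ((n.choose (i + 1) * (i + 1) : ℕ) : ℝ) = ((n.choose i * (n - i) : ℕ) : ℝ) := by
      rw [h]
    push_cast [Nat.cast_sub hi.le] at h'
    exact h'
  have hup : ∀ i : ℕ, i + 1 ≤ t →
      (n.choose i : ℝ) * w ^ i ≤ (n.choose (i + 1) : ℝ) * w ^ (i + 1) := by
    intro i hi
    have hs := hstep i (by omega)
    have hi' : (i : ℝ) + 1 ≤ t := by exact_mod_cast hi
    have hi0 : (0 : ℝ) ≤ i := Nat.cast_nonneg i
    have hc : (0 : ℝ) ≤ n.choose i := Nat.cast_nonneg _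
    have hwi : 0 ≤ w ^ i := by positivity
    have key : (i : ℝ) + 1 ≤ ((n : ℝ) - i) * w := by nlinarith
    have : (n.choose i : ℝ) * w ^ i * ((i : ℝ) + 1)
        ≤ (n.choose (i + 1) : ℝ) * w ^ (i + 1) * ((i : ℝ) + 1) := by
      calc (n.choose i : ℝ) * w ^ i * ((i : ℝ) + 1)
          ≤ (n.choose i : ℝ) * w ^ i * (((n : ℝ) - i) * w) :=
            mul_le_mul_of_nonneg_left key (by positivity)
        _ = ((n.choose i : ℝ) * ((n : ℝ) - i)) * w ^ (i + 1) := by ring
        _ = _ := by rw [← hs]; ring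
    exact le_of_mul_le_mul_right this (by linarith)
  have hdown : ∀ i : ℕ, t ≤ i →
      (n.choose (i + 1) : ℝ) * w ^ (i + 1) ≤ (n.choose i : ℝ) * w ^ i := by
    intro i hi
    by_cases hin : i < n
    · have hs := hstep i hin
      have hi' : (t : ℝ) ≤ i := by exact_mod_cast hi
      have hi0 : (0 : ℝ) ≤ i := Nat.cast_nonneg i
      have key : ((n : ℝ) - i) * w ≤ (i : ℝ) + 1 := by nlinarith
      have : (n.choose (i + 1) : ℝ) * w ^ (i + 1) * ((i : ℝ) + 1)
          ≤ (n.choose i : ℝ) * w ^ i * ((i : ℝ) + 1) := by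
        calc (n.choose (i + 1) : ℝ) * w ^ (i + 1) * ((i : ℝ) + 1)
            = ((n.choose (i + 1) : ℝ) * ((i : ℝ) + 1)) * w ^ (i + 1) := by ring
          _ = (n.choose i : ℝ) * w ^ i * (((n : ℝ) - i) * w) := by rw [hs]; ring
          _ ≤ _ := mul_le_mul_of_nonneg_left key (by positivity)
      exact le_of_mul_le_mul_right this (by linarith)
    · rw [Nat.choose_eq_zero_of_lt (by omega)]
      simp only [Nat.cast_zero, zero_mul]
      positivity
  have hall : ∀ i : ℕ, (n.choose i : ℝ) * w ^ i ≤ (n.choose t : ℝ) * w ^ t := by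
    intro i
    rcases le_total i t with h | h
    · induction h' : t - i generalizing i with
      | zero =>
        have : i = t := by omega
        rw [this]
      | succ d ih =>
        exact (hup i (by omega)).trans (ih (i + 1) (by omega) (by omega))
    · induction h with
      | refl => exact le_rfl
      | step hm ih => exact (hdown _ hm).trans ih
  have hb : (1 + w) ^ n = ∑ i ∈ range (n + 1), (n.choose i : ℝ) * w ^ i := by
    rw [add_comm, add_pow]
    refine sum_congr rfl fun i _ => ?_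
    rw [one_pow]; ring
  rw [hb]
  have := sum_le_card_nsmul (range (n + 1)) (fun i => (n.choose i : ℝ) * w ^ i) _
    (fun i _ => hall i)
  rw [card_range, nsmul_eq_mul] at this
  push_cast at this
  exact this

/-- Greedy choice of disjoint blocks. -/
theorem greedy (N : ℕ → Finset ℕ) (D : Finset ℤ) (X : Finset ℕ)
    (hN : ∀ x ∈ X, ∀ a ∈ N x, (a : ℤ) - x ∈ D) (hne : ∀ x ∈ X, (N x).Nonempty) :
    ∃ Y ⊆ X, (∀ x ∈ Y, ∀ y ∈ Y, x ≠ y → Disjoint (N x) (N y)) ∧
      X.card ≤ D.card ^ 2 * Y.card := by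
  classical
  have hex : (X.powerset.filter
      (fun Y => ∀ x ∈ Y, ∀ y ∈ Y, x ≠ y → Disjoint (N x) (N y))).Nonempty :=
    ⟨∅, by simp⟩
  obtain ⟨Y, hY, hmax⟩ := exists_max_image _ card hex
  simp only [mem_filter, mem_powerset] at hY hmax
  refine ⟨Y, hY.1, hY.2, ?_⟩
  have hcov : X ⊆ Y.biUnion (fun y => (D ×ˢ D).image (fun p => ((y : ℤ) + p.1 - p.2).toNat)) := by
    intro x hx
    have : ∃ y ∈ Y, ¬ Disjoint (N x) (N y) := by
      by_contra hc
      push Not at hc
      by_cases hxY : x ∈ Y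
      · have := hc x hxY
        rw [disjoint_self] at this
        exact (hne x hx).ne_empty this
      · have h1 := hmax (insert x Y) ⟨insert_subset hx hY.1, ?_⟩
        · rw [card_insert_of_notMem hxY] at h1
          omega
        · intro a ha b hb hab
          rcases mem_insert.1 ha with rfl | ha' <;> rcases mem_insert.1 hb with rfl | hb'
          · exact absurd rfl hab
          · exact hc b hb'
          · exact (hc a ha').symm
          · exact hY.2 a ha' b hb' hab
    obtain ⟨y, hy, hnd⟩ := this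
    obtain ⟨a, ha1, ha2⟩ := not_disjoint_iff.1 hnd
    refine mem_biUnion.2 ⟨y, hy, mem_image.2 ⟨((a : ℤ) - y, (a : ℤ) - x),
      mem_product.2 ⟨hN y (hY.1 hy) a ha2, hN x hx a ha1⟩, ?_⟩⟩
    have : (y : ℤ) + ((a : ℤ) - y) - ((a : ℤ) - x) = x := by ring
    simp only [this, Int.toNat_natCast]
  calc X.card ≤ _ := card_le_card hcov
    _ ≤ Y.card * D.card ^ 2 := by
        refine card_biUnion_le_card_mul _ _ _ fun y _ => ?_
        refine card_image_le.trans ?_
        rw [card_product, sq]
    _ = _ := mul_comm _ _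

end Pool.Agent.Lib.MP_bba460_co
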